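import Pool.Agent.H879.Pos.Last
import Pool.Agent.H879.Star.Main
import Pool.Graph.R_pool_sql_team_seeded_2aa45f1a.Q78.SG.Std

/-! Smooth general members. -/

set_option autoImplicit false

namespace Pool.Agent.H879.Pos

open MvPolynomial Pool.Agent.H248R5 Pool.Agent.H248R6
open Pool.Agent.Q310.FP (Standard GE)
open Pool.Agent.TH387.SH (TF coe_TF card_TF)

/-- standard range, nine arbitrary multiplicities -/
def GoodA {s : ℕ} (v : Fin s → ℕ) (d : ℕ) : Prop :=
  (∀ i j k : Fin s, i ≠ j → i ≠ k → j ≠ k → v i + v j + v k < d) ∧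
  (∀ k, ∑ i, (v i + 1).choose 2 + v k < (d + 2).choose 2) ∧
  ∃ μ : ℕ, (Finset.univ.filter fun i => μ < v i).card ≤ 9 ∧
    10000000000000000000000000000000 * (μ + 2) ^ 14 < d

theorem upd_eq {s : ℕ} (v : Fin s → ℕ) (k i : Fin s) :
    Function.update v k (v k + 1) i = v i + if i = k then 1 else 0 := by
  by_cases hi : i = k
  · subst hi
    rw [Function.update_self, if_pos rfl]
  · rw [Function.update_of_ne hi, if_neg hi, add_zero]

theorem goodA_exp {s e : ℕ} (hs : 4 ≤ s) {v : Fin s → ℕ} (hg : GoodA v (e + 1)) {L : Type}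
    [Field L] [CharZero L] {P : Fin s → Fin 2 → L}
    (hP : AlgebraicIndependent ℚ (fun ij : Fin s × Fin 2 => P ij.1 ij.2)) :
    (∀ k, H932R3.ExpDim L (Function.update v k (v k + 1)) P (e + 1)) ∧
      H932R3.ExpDim L (fun i => v i - 1) P e := by
  classical
  obtain ⟨h1, h2, μ, h3, h4⟩ := hg
  have hm : (μ + 1) ^ 14 ≤ (μ + 2) ^ 14 := Nat.pow_le_pow_left (by omega) 14
  have e14 : (μ + 1 + 1) ^ 14 = (μ + 2) ^ 14 := rfl
  have h0 : ∀ i, i ∉ (Finset.univ.filter fun i => μ < v i) → v i ≤ μ := by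
    intro i hi
    rw [Finset.mem_filter, not_and] at hi
    have := hi (Finset.mem_univ i)
    omega
  constructor
  · intro k
    refine Pool.Agent.H879.Star.ge_star (μ := μ + 1) (I := Finset.univ.filter fun i => μ < v i)
      hs ?_ h3 (fun i hi => ?_) (by rw [e14]; omega) L P hP
    · intro i j l hij hil hjl
      have h5 := h1 i j l hij hil hjl
      rw [upd_eq, upd_eq, upd_eq]
      by_cases b1 : i = k
      · subst b1
        rw [if_pos rfl, if_neg hij.symm, if_neg hil.symm]
        omega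
      · by_cases b2 : j = k
        · subst b2
          rw [if_neg b1, if_pos rfl, if_neg hjl.symm]
          omega
        · rw [if_neg b1, if_neg b2]
          split_ifs <;> omega
    · have := h0 i hi
      rw [upd_eq]
      split_ifs <;> omega
  · refine Pool.Agent.H879.Star.ge_star (μ := μ) (I := Finset.univ.filter fun i => μ < v i)
      hs ?_ h3 (fun i hi => ?_) (by omega) L P hP
    · intro i j l hij hil hjl
      have h5 := h1 i j l hij hil hjl
      show v i - 1 + (v j - 1) + (v l - 1) ≤ e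
      omega
    · have := h0 i hi
      show v i - 1 ≤ μ
      omega

/-- at most `κ` large multiplicities -/
def GoodB {s : ℕ} (v : Fin s → ℕ) (d : ℕ) : Prop :=
  (∀ k, ∑ i, (v i + 1).choose 2 + v k < (d + 2).choose 2) ∧
  ∃ μ m κ : ℕ, 9 ≤ κ ∧ (Finset.univ.filter fun i => μ < v i).card ≤ κ ∧
    (∀ i, μ < v i → v i ≤ m) ∧
    √(κ : ℝ) * (m + 1 + 16384 * ((μ : ℝ) + 2) ^ 3) + 8796093022208 * ((μ : ℝ) + 2) ^ 11 ≤ d

theorem goodB_exp {s e : ℕ} {v : Fin s → ℕ} (hg : GoodB v (e + 1)) {L : Type}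
    [Field L] [CharZero L] {P : Fin s → Fin 2 → L}
    (hP : AlgebraicIndependent ℚ (fun ij : Fin s × Fin 2 => P ij.1 ij.2)) :
    (∀ k, H932R3.ExpDim L (Function.update v k (v k + 1)) P (e + 1)) ∧
      H932R3.ExpDim L (fun i => v i - 1) P e := by
  classical
  obtain ⟨h2, μ, m, κ, h3, h4, h5, h6⟩ := hg
  have hμ0 : (0 : ℝ) ≤ μ := Nat.cast_nonneg μ
  have hκ1 : (1 : ℝ) ≤ √(κ : ℝ) := by
    apply Real.le_sqrt_of_sq_le
    have : (9 : ℝ) ≤ κ := by exact_mod_cast h3
    linarith
  constructor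
  · intro k
    show Module.finrank L ↥(forms (Function.update v k (v k + 1)) P (e + 1)) = _
    rw [finrank_ind _ _ hP]
    refine crk_window (m := m + 1) (μ := μ + 1) h3 ?_ (fun i hi => ?_) ?_
    · refine le_trans (Finset.card_le_card fun i hi => ?_) h4
      rw [Finset.mem_filter] at hi ⊢
      have h7 := hi.2
      rw [upd_eq] at h7
      refine ⟨hi.1, ?_⟩
      split_ifs at h7 <;> omega
    · rw [upd_eq] at hi ⊢
      by_cases hik : i = k
      · rw [if_pos hik] at hi ⊢
        have := h5 i (by omega)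
        omega
      · rw [if_neg hik] at hi ⊢
        have := h5 i (by omega)
        omega
    · push_cast
      have e1 : (μ : ℝ) + 1 + 1 = μ + 2 := by ring
      rw [e1]
      push_cast at h6
      exact h6
  · show Module.finrank L ↥(forms (fun i => v i - 1) P e) = _
    rw [finrank_ind _ _ hP]
    refine crk_window (m := m) (μ := μ) h3 ?_ (fun i hi => ?_) ?_
    · refine le_trans (Finset.card_le_card fun i hi => ?_) h4
      rw [Finset.mem_filter] at hi ⊢
      exact ⟨hi.1, by omega⟩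
    · have := h5 i (by omega)
      omega
    · push_cast at h6
      have h7 : ((μ : ℝ) + 1) ^ 3 ≤ (μ + 2) ^ 3 := pow_le_pow_left₀ (by linarith) (by linarith) 3
      have h8 : ((μ : ℝ) + 1) ^ 11 ≤ (μ + 2) ^ 11 := pow_le_pow_left₀ (by linarith) (by linarith) 11
      have h9 : √(κ : ℝ) * (m + 16384 * ((μ : ℝ) + 1) ^ 3) + √(κ : ℝ) ≤
          √(κ : ℝ) * (m + 1 + 16384 * ((μ : ℝ) + 2) ^ 3) := by
        have e1 : √(κ : ℝ) * (m + 16384 * ((μ : ℝ) + 1) ^ 3) + √(κ : ℝ) =
          √(κ : ℝ) * (m + 1 + 16384 * ((μ : ℝ) + 1) ^ 3) := by ring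
        rw [e1]
        exact mul_le_mul_of_nonneg_left (by linarith) (by linarith)
      linarith

theorem smooth_all {s : ℕ} (hs : 4 ≤ s) (v : Fin s → ℕ) :
    ∃ F : MvPolynomial (Fin s × Fin 2) ℚ, F ≠ 0 ∧ ∀ P : Fin s → Fin 2 → ℂ,
      aeval (fun ij : Fin s × Fin 2 => P ij.1 ij.2) F ≠ 0 →
      ∀ w : Fin s → ℕ, (∀ i, w i ≤ v i) → ∀ d, (GoodA v d ∨ GoodB v d) →
        Module.finrank ℂ ↥(forms w P d) + ∑ i, (w i + 1).choose 2 = (d + 2).choose 2 ∧
          GeneralMember (forms w P d) (SmoothMember w P) := by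
  obtain ⟨F, hF, h⟩ := Pool.Agent.Q78.SG.smooth_fam (K := ℂ) v (by omega)
    (fun d => GoodA v d ∨ GoodB v d)
    (fun e he L _ _ P hP => by
      rcases he with he | he
      · exact goodA_exp hs he hP
      · exact goodB_exp he hP)
    (fun e he k => by
      have h3 : e + 1 + 2 = e + 3 := rfl
      rcases he with he | he
      · have := he.2.1 k
        rw [h3] at this
        omega
      · have := he.1 k
        rw [h3] at this
        omega)
  refine ⟨F, hF, fun P hP w hw d hd => ?_⟩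
  obtain ⟨e, rfl⟩ : ∃ e, d = e + 1 := by
    have hd0 : 1 ≤ d := by
      rcases hd with hd | hd
      · obtain ⟨-, -, μ, -, h4⟩ := hd
        omega
      · have h1 := hd.1 ⟨0, by omega⟩
        by_contra hcon
        have h0 : d = 0 := by omega
        obtain ⟨-, μ, m, κ, -, -, -, h4⟩ := hd
        rw [h0] at h4
        have h5 : (0 : ℝ) ≤ √(κ : ℝ) * (m + 1 + 16384 * ((μ : ℝ) + 2) ^ 3) := by positivity
        have h6 : (0 : ℝ) < 8796093022208 * ((μ : ℝ) + 2) ^ 11 := by positivity
        norm_num at h4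
        linarith
    exact ⟨d - 1, by omega⟩
  exact h P hP w hw e (Or.inl hd)

end Pool.Agent.H879.Pos
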