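import Pool.Graph.R_seed8.TH167.TT.Move
import Pool.Graph.R_seed8.TH167.Neg.Dim

/-! Irreducible curves through a generic point: moving the point. -/

set_option autoImplicit false

namespace Pool.Agent.H879.Pos

open MvPolynomial Pool.Agent.W609 Pool.Agent.W609.CR Pool.Agent.TH167.SH Pool.Agent.TH167.TT
  Pool.Agent.H248R5 Pool.Agent.H248R6

/-- a form of the same degree is divisible by `G` only if it is proportional to `G` -/
theorem eq_smul_of_dvd {K : Type} [Field K] {G F : MvPolynomial (Fin 3) K} {e : ℕ}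
    (hG0 : G ≠ 0) (hGe : G.IsHomogeneous e) (hFe : F.IsHomogeneous e) (h : G ∣ F) :
    ∃ c : K, F = C c * G := by
  by_cases hF0 : F = 0
  · exact ⟨0, by rw [hF0, map_zero, zero_mul]⟩
  obtain ⟨H, hH⟩ := h
  have hH0 : H ≠ 0 := fun h => hF0 (by rw [hH, h, mul_zero])
  have t1 := hFe.totalDegree hF0
  have t2 := hGe.totalDegree hG0
  have t3 : (G * H).totalDegree = G.totalDegree + H.totalDegree :=
    MvPolynomial.totalDegree_mul_of_isDomain hG0 hH0
  rw [← hH, t1, t2] at t3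
  have t4 : H.totalDegree = 0 := by omega
  rw [MvPolynomial.totalDegree_eq_zero_iff_eq_C] at t4
  exact ⟨H.coeff 0, by rw [hH, mul_comm]; exact congrArg (· * G) t4⟩

theorem ord_of_smul {K : Type} [Field K] {c : K} (hc : c ≠ 0) {p : Fin 2 → K}
    {G : MvPolynomial (Fin 3) K} {m : ℕ} (h : Ord (aff p) m G) : Ord (aff p) m (C c * G) := by
  refine ⟨Ideal.mul_mem_left _ _ h.1, fun h2 => h.2 ?_⟩
  have h3 : G = C c⁻¹ * (C c * G) := by
    rw [← mul_assoc, ← map_mul, inv_mul_cancel₀ hc, map_one, one_mul]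
  rw [h3]
  exact Ideal.mul_mem_left _ _ h2

/-- the moved curve -/
theorem moved {K : Type} [Field K] [CharZero K] {s : ℕ} {P : Fin s → Fin 2 → K}
    (hP : AlgebraicIndependent ℚ (fun ij : Fin s × Fin 2 => P ij.1 ij.2))
    {G : MvPolynomial (Fin 3) K} {e : ℕ} (hG : Irreducible G) (hGe : G.IsHomogeneous e)
    {c : Fin s → ℕ} (hc : ∀ j, Ord (aff (P j)) (c j) G) {j : Fin s} {m : ℕ} (hj : c j = m + 1) :
    ∃ H ∈ forms (Function.update c j m) P e, ¬ G ∣ H := by
  classical
  obtain ⟨μ, hμ0⟩ := MvPolynomial.ne_zero_iff.1 hG.ne_zero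
  obtain ⟨k, hk⟩ : ∃ k, k = (coeff μ G)⁻¹ := ⟨_, rfl⟩
  have hk0 : k ≠ 0 := by
    rw [hk]
    exact inv_ne_zero hμ0
  obtain ⟨g, hg⟩ : ∃ g, g = C k * G := ⟨_, rfl⟩
  have hμ : coeff μ g = 1 := by
    rw [hg, coeff_C_mul, hk, inv_mul_cancel₀ hμ0]
  have hg0 : g ≠ 0 := by
    rw [hg]
    exact mul_ne_zero (fun h => hk0 (by rwa [C_eq_zero] at h)) hG.ne_zero
  have hge : g.IsHomogeneous e := by
    rw [hg]
    exact hGe.C_mul _
  have hgc : ∀ i, Ord (aff (P i)) (c i) g := fun i => by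
    rw [hg]
    exact ord_of_smul hk0 (hc i)
  have hgf : g ∈ forms c P e := by
    rw [← mem_forms_VS, mem_VS]
    exact ⟨hge, fun i => (hgc i).1⟩
  obtain ⟨D, hD⟩ := exists_D hP
  by_contra hcon
  push Not at hcon
  have key : ∀ a : Fin 2, pderiv a (homogeneousComponent (m + 1) (tau (P j) g)) = 0 := by
    intro a
    obtain ⟨k1, k2⟩ := move (w := c) (P := P) (d := e) (k := j) (m := m)
      hj (a := a) (D (j, a)) (fun i b => hD (j, a) i b) hgf
    have k3 := hcon _ k1
    have k3' : g ∣ dG (D (j, a)) g := by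
      obtain ⟨q, hq⟩ := k3
      refine ⟨C k⁻¹ * q, ?_⟩
      rw [hq, hg]
      have : C k * G * (C k⁻¹ * q) = (C k * C k⁻¹) * (G * q) := by ring
      rw [this, ← map_mul, mul_inv_cancel₀ hk0, map_one, one_mul]
    obtain ⟨l, hl⟩ := eq_smul_of_dvd hg0 hge (mem_forms.1 k1).1 k3'
    have h3 := congrArg (coeff μ) hl
    rw [coeff_C_mul, coeff_dG, hμ, D (j, a) |>.map_one_eq_zero, mul_one] at h3
    have k4 : dG (D (j, a)) g = 0 := by
      rw [hl, ← h3, map_zero, zero_mul]
    rw [k4, map_zero, map_zero] at k2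
    exact neg_eq_zero.1 k2.symm
  have h2 : homogeneousComponent (m + 1) (tau (P j) g) = 0 := by
    have h3 : (homogeneousComponent (m + 1) (tau (P j) g)).IsHomogeneous (m + 1) :=
      homogeneousComponent_isHomogeneous _ _
    have h4 := h3.sum_X_mul_pderiv
    rw [Finset.sum_eq_zero (fun l _ => by rw [key, mul_zero]), nsmul_eq_mul] at h4
    rcases mul_eq_zero.1 h4.symm with h5 | h5
    · exfalso
      have : ((m + 1 : ℕ) : MvPolynomial (Fin 2) K) ≠ 0 := by
        exact_mod_cast Nat.succ_ne_zero m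
      exact this h5
    · exact h5
  apply (hgc j).2
  rw [van_tau hge, mem_pow_idealOfVars_iff']
  intro σ hσ
  have h3 := (van_tau hge).1 (hgc j).1
  rw [mem_pow_idealOfVars_iff'] at h3
  rw [hj] at hσ h3
  rcases Nat.lt_or_ge σ.degree (m + 1) with h4 | h4
  · exact h3 σ h4
  · have h5 := congrArg (coeff σ) h2
    rw [coeff_homogeneousComponent, if_pos (by omega), coeff_zero] at h5
    exact h5

/-- **The self-intersection of a moving curve.** -/
theorem self_int {K : Type} [Field K] [CharZero K] {s : ℕ} {P : Fin s → Fin 2 → K}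
    (hP : AlgebraicIndependent ℚ (fun ij : Fin s × Fin 2 => P ij.1 ij.2))
    {G : MvPolynomial (Fin 3) K} {e : ℕ} (hG : Irreducible G) (hGe : G.IsHomogeneous e)
    {c : Fin s → ℕ} (hc : ∀ j, Ord (aff (P j)) (c j) G) {j : Fin s} (hj : 1 ≤ c j) :
    ∑ i, c i ^ 2 ≤ e ^ 2 + c j := by
  classical
  obtain ⟨m, hm⟩ : ∃ m, c j = m + 1 := ⟨c j - 1, by omega⟩
  obtain ⟨H, hH, hnd⟩ := moved hP hG hGe hc hm
  have hH0 : H ≠ 0 := fun h => hnd (by rw [h]; exact dvd_zero _)
  rw [← mem_forms_VS, mem_VS] at hH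
  have h1 := bez (inj_of_alg hP) hG hGe (fun i => (hc i).1) hH0 hH.1 hH.2 hnd
  have h2 : ∑ i, c i ^ 2 = ∑ i, c i * Function.update c j m i + c j := by
    rw [← Finset.add_sum_erase _ _ (Finset.mem_univ j),
      ← Finset.add_sum_erase _ (fun i => c i * Function.update c j m i) (Finset.mem_univ j),
      Function.update_self]
    have h3 : ∑ i ∈ Finset.univ.erase j, c i ^ 2 =
        ∑ i ∈ Finset.univ.erase j, c i * Function.update c j m i := by
      refine Finset.sum_congr rfl fun i hi => ?_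
      rw [Function.update_of_ne (Finset.ne_of_mem_erase hi), sq]
    rw [h3, hm]
    ring
  rw [h2]
  have e1 : e ^ 2 = e * e := sq e
  omega

end Pool.Agent.H879.Pos
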