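import Pool.Agent.H879.Pos.Cor

/-! The theorems over the complex numbers. -/

set_option autoImplicit false

namespace Pool.Agent.H879.Pos

open Finset Pool.Agent.TH176.Nag Pool.Agent.TH603.Sur Pool.Agent.TH2 Pool.Agent.TH2.NU
open Pool.Agent.Y205.MD Pool.Agent.Y205.FW Pool.Agent.Y205.AV Pool.Agent.K7.H33.BP
open Pool.Agent.H879.Star
open Pool.Agent.H248R5 (forms)
open Pool.Agent.TH387.SH (TF coe_TF card_TF)

/-- The property holds for all `n`-tuples of points outside some hypersurface. -/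
def Gen {n : ℕ} (p : (Fin n → Fin 2 → ℂ) → Prop) : Prop :=
  ∃ F : MvPolynomial (Fin n × Fin 2) ℂ, F ≠ 0 ∧ ∀ P : Fin n → Fin 2 → ℂ,
    MvPolynomial.eval (fun ij : Fin n × Fin 2 => P ij.1 ij.2) F ≠ 0 → p P

theorem Gen.mono {n : ℕ} {p q : (Fin n → Fin 2 → ℂ) → Prop} (h : Gen p) (hpq : ∀ P, p P → q P) :
    Gen q := by
  obtain ⟨F, hF, h'⟩ := h
  exact ⟨F, hF, fun P hP => hpq P (h' P hP)⟩

theorem Gen.and {n : ℕ} {p q : (Fin n → Fin 2 → ℂ) → Prop} (h : Gen p) (h' : Gen q) :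
    Gen fun P => p P ∧ q P := by
  obtain ⟨F, hF, h1⟩ := h
  obtain ⟨G, hG, h2⟩ := h'
  refine ⟨F * G, mul_ne_zero hF hG, fun P hP => ?_⟩
  rw [map_mul] at hP
  exact ⟨h1 P (left_ne_zero_of_mul hP), h2 P (right_ne_zero_of_mul hP)⟩

/-- a general point exists -/
theorem Gen.exists {n : ℕ} {p : (Fin n → Fin 2 → ℂ) → Prop} (h : Gen p) : ∃ P, p P := by
  obtain ⟨F, hF, h1⟩ := h
  by_contra hcon
  push Not at hcon
  apply hF
  apply MvPolynomial.funext
  intro x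
  rw [map_zero]
  by_contra hne
  exact hcon (fun i j => x (i, j)) (h1 _ hne)

theorem gen_crk {n : ℕ} (w : Fin n → ℕ) (d : ℕ) :
    Gen fun P => Module.finrank ℂ ↥(forms w P d) = crk (TF d) w := by
  obtain ⟨F, hF, h⟩ := finrank_open w d
  refine ⟨MvPolynomial.map (algebraMap ℚ ℂ) F, ?_, fun P hP => h ℂ P ?_⟩
  · intro h0
    exact hF (MvPolynomial.map_injective _ (algebraMap ℚ ℂ).injective (by rw [h0, map_zero]))
  · rw [MvPolynomial.eval_map] at hP
    exact hP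

theorem gen_le {n k : ℕ} {c : Fin n → ℕ} {e : ℕ} :
    (Gen fun P => k ≤ Module.finrank ℂ ↥(forms c P e)) ↔ k ≤ crk (TF e) c := by
  constructor
  · intro h
    obtain ⟨P, h1, h2⟩ := (h.and (gen_crk c e)).exists
    rw [h2] at h1
    exact h1
  · intro h
    exact (gen_crk c e).mono fun P hP => by rw [hP]; exact h

/-- **(1)** the abstract theorem -/
theorem gen_small {n d μ T : ℕ} {v w : Fin n → ℕ} (hvw : ∀ i, v i = 0 ∨ w i = 0)
    (hw : ∀ i, w i ≤ μ) (hT : 8796093022208 * (μ + 1) ^ 11 ≤ T) (hv : Posv T d v)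
    (hK : 16384 * (μ + 1) ^ 3 * ∑ i, v i + ∑ i, v i ^ 2 ≤
      16384 * (μ + 1) ^ 3 * (3 * d) + d ^ 2) :
    Gen fun P => Module.finrank ℂ ↥(forms (fun i => v i + w i) P d) =
      Module.finrank ℂ ↥(forms v P d) - ∑ i, (w i + 1).choose 2 := by
  refine ((gen_crk (fun i => v i + w i) d).and (gen_crk v d)).mono fun P hP => ?_
  rw [hP.1, hP.2]
  exact small_crk hvw hw hT hv hK

theorem cond_two (m : ℕ) : 2 * (m + 1).choose 2 = m * (m + 1) := Pool.Agent.TH2.NU.two_choose m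

theorem wt_K {n d μ κ : ℕ} {v : Fin n → ℕ}
    (h : (univ.filter fun i => 0 < v i).card ≤ κ)
    (hd : wt v + 16384 * ((μ : ℝ) + 1) ^ 3 * √(κ : ℝ) ≤ d) :
    16384 * (μ + 1) ^ 3 * ∑ i, v i + ∑ i, v i ^ 2 ≤ 16384 * (μ + 1) ^ 3 * (3 * d) + d ^ 2 := by
  obtain ⟨q, hq⟩ : ∃ q : ℕ, q = 16384 * (μ + 1) ^ 3 := ⟨_, rfl⟩
  have hq' : (q : ℝ) = 16384 * ((μ : ℝ) + 1) ^ 3 := by rw [hq]; push_cast; ring
  rw [← hq'] at hd
  rw [← hq]
  have h1 := wt_sum h
  have h2 := wt_sq v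
  have h3 := wt_nonneg v
  have h4 : (0 : ℝ) ≤ √(κ : ℝ) := Real.sqrt_nonneg _
  have h5 : (0 : ℝ) ≤ q := Nat.cast_nonneg q
  have h6 : (wt v + q * √(κ : ℝ)) ^ 2 ≤ (d : ℝ) ^ 2 :=
    pow_le_pow_left₀ (add_nonneg h3 (mul_nonneg h5 h4)) hd 2
  have h7 : (q : ℝ) * ((∑ i, v i : ℕ) : ℝ) ≤ q * (√(κ : ℝ) * wt v) :=
    mul_le_mul_of_nonneg_left h1 h5
  have h8 : (0 : ℝ) ≤ q * √(κ : ℝ) * wt v := mul_nonneg (mul_nonneg h5 h4) h3
  have h9 : (0 : ℝ) ≤ (q * √(κ : ℝ)) ^ 2 := sq_nonneg _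
  have h10 : (q : ℝ) * ((∑ i, v i : ℕ) : ℝ) + ((∑ i, v i ^ 2 : ℕ) : ℝ) ≤ (d : ℝ) ^ 2 := by
    nlinarith [h6, h7, h8, h9, h2]
  have h11 : q * ∑ i, v i + ∑ i, v i ^ 2 ≤ d ^ 2 := by exact_mod_cast h10
  omega

/-- the large multiplicities -/
def large {n : ℕ} (w : Fin n → ℕ) (μ : ℕ) : Fin n → ℕ := fun i => if μ < w i then w i else 0

/-- the small multiplicities -/
def small {n : ℕ} (w : Fin n → ℕ) (μ : ℕ) : Fin n → ℕ := fun i => if μ < w i then 0 else w i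

theorem large_add {n : ℕ} (w : Fin n → ℕ) (μ : ℕ) :
    (fun i => large w μ i + small w μ i) = w := by
  funext i
  unfold large small
  split_ifs <;> omega

theorem filter_large {n : ℕ} (w : Fin n → ℕ) (μ : ℕ) :
    (univ.filter fun i => 0 < large w μ i) = univ.filter fun i => μ < w i := by
  ext i
  rw [mem_filter, mem_filter]
  unfold large
  split_ifs with h <;> simp <;> omega

/-- **(2)** the core and the others -/
theorem gen_wt {n d μ κ : ℕ} {w : Fin n → ℕ}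
    (h : (univ.filter fun i => μ < w i).card ≤ κ)
    (hd : wt (large w μ) + 16384 * ((μ : ℝ) + 1) ^ 3 * √(κ : ℝ) +
      8796093022208 * ((μ : ℝ) + 1) ^ 11 ≤ d) :
    crk (TF d) w = crk (TF d) (large w μ) - ∑ i, (small w μ i + 1).choose 2 := by
  have h0 : (0 : ℝ) ≤ 16384 * ((μ : ℝ) + 1) ^ 3 * √(κ : ℝ) := by positivity
  have h1 : (0 : ℝ) ≤ 8796093022208 * ((μ : ℝ) + 1) ^ 11 := by positivity
  have key := small_crk (v := large w μ) (w := small w μ) (μ := μ) (d := d)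
    (T := 8796093022208 * (μ + 1) ^ 11) (fun i => by unfold large small; split_ifs <;> simp)
    (fun i => by unfold small; split_ifs <;> omega) le_rfl
    (posv_wt (by push_cast; linarith)) (wt_K (κ := κ) (by rw [filter_large]; exact h)
    (by linarith))
  rw [large_add] at key
  exact key

theorem cond_split {n : ℕ} (w : Fin n → ℕ) (μ : ℕ) :
    ∑ i, (w i + 1).choose 2 = ∑ i, (large w μ i + 1).choose 2 + ∑ i, (small w μ i + 1).choose 2 := by
  rw [← sum_add_distrib]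
  refine sum_congr rfl fun i _ => ?_
  unfold large small
  split_ifs <;> norm_num

/-- **(3)** the window -/
theorem crk_window {n d m μ κ : ℕ} {w : Fin n → ℕ} (hκ : 9 ≤ κ)
    (h : (univ.filter fun i => μ < w i).card ≤ κ) (hm : ∀ i, μ < w i → w i ≤ m)
    (hd : √(κ : ℝ) * (m + 16384 * ((μ : ℝ) + 1) ^ 3) + 8796093022208 * ((μ : ℝ) + 1) ^ 11 ≤ d) :
    crk (TF d) w = (d + 2).choose 2 - ∑ i, (w i + 1).choose 2 := by
  have hvm : ∀ i, large w μ i ≤ m := fun i => by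
    unfold large
    split_ifs with h1
    · exact hm i h1
    · exact Nat.zero_le _
  have h1 := wt_le (v := large w μ) hvm hκ (by rw [filter_large]; exact h)
  have e1 : √(κ : ℝ) * (m + 16384 * ((μ : ℝ) + 1) ^ 3) =
    √(κ : ℝ) * m + 16384 * ((μ : ℝ) + 1) ^ 3 * √(κ : ℝ) := by ring
  have h2 := gen_wt (d := d) h (by rw [e1] at hd; linarith)
  have hr : (0 : ℝ) ≤ √(κ : ℝ) := Real.sqrt_nonneg _
  have hμ : (1 : ℝ) ≤ ((μ : ℝ) + 1) ^ 3 := one_le_pow₀ (by
    have : (0 : ℝ) ≤ μ := Nat.cast_nonneg μ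
    linarith)
  have h3 : Ex (TF d) (large w μ) := core_ind hvm hκ (by rw [filter_large]; exact h) (by
    have h4 : √(κ : ℝ) * ((m : ℝ) + 1) ≤ √(κ : ℝ) * (m + 16384 * ((μ : ℝ) + 1) ^ 3) :=
      mul_le_mul_of_nonneg_left (by linarith) hr
    have h5 : (0 : ℝ) ≤ 8796093022208 * ((μ : ℝ) + 1) ^ 11 := by positivity
    linarith)
  have h4 : crk (TF d) (large w μ) ≤ (d + 2).choose 2 - ∑ i, (large w μ i + 1).choose 2 := by
    rw [← card_TF]
    exact h3
  have h5 := cond_split w μ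
  -- the lower bound
  have h6 : (TF d).card ≤ crk (TF d) w + ∑ i, (w i + 1).choose 2 := by
    obtain ⟨M, hM⟩ : ∃ M : Multiset ℕ, M = (univ : Finset (Fin n)).val.map w := ⟨_, rfl⟩
    have e3 : ∀ t : ℕ → ℕ, ∑ i, t (w i) = (M.map t).sum := by
      intro t
      rw [hM, Multiset.map_map]
      rfl
    have h7 := card_le_crkM (TF_pos (d := d)) M
    rw [crkM_eq e3] at h7
    unfold Pool.Agent.TH2.NU.condM at h7
    rw [← e3 fun x => (x + 1).choose 2] at h7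
    exact h7
  rw [card_TF] at h6
  omega

theorem crk_lower {n : ℕ} (d : ℕ) (w : Fin n → ℕ) :
    (d + 2).choose 2 ≤ crk (TF d) w + ∑ i, (w i + 1).choose 2 := by
  obtain ⟨M, hM⟩ : ∃ M : Multiset ℕ, M = (univ : Finset (Fin n)).val.map w := ⟨_, rfl⟩
  have e3 : ∀ t : ℕ → ℕ, ∑ i, t (w i) = (M.map t).sum := by
    intro t
    rw [hM, Multiset.map_map]
    rfl
  have h7 := card_le_crkM (TF_pos (d := d)) M
  rw [crkM_eq e3] at h7
  unfold Pool.Agent.TH2.NU.condM at h7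
  rw [← e3 fun x => (x + 1).choose 2, card_TF] at h7
  exact h7

theorem TF_mono {d e : ℕ} (h : d ≤ e) : TF d ⊆ TF e := by
  intro u hu
  rw [mem_TF] at hu ⊢
  omega

/-- **(3)** the window, all degrees -/
theorem crk_all {n D d m μ κ : ℕ} {w : Fin n → ℕ} (hκ : 9 ≤ κ)
    (h : (univ.filter fun i => μ < w i).card ≤ κ) (hm : ∀ i, μ < w i → w i ≤ m)
    (hD : √(κ : ℝ) * (m + 16384 * ((μ : ℝ) + 1) ^ 3) + 8796093022208 * ((μ : ℝ) + 1) ^ 11 ≤ D)
    (hd : D ≤ d ∨ (D + 2).choose 2 ≤ ∑ i, (w i + 1).choose 2) :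
    crk (TF d) w = (d + 2).choose 2 - ∑ i, (w i + 1).choose 2 := by
  rcases Nat.lt_or_ge d D with hlt | hge
  · have h1 := crk_window (d := D) hκ h hm hD
    have h2 : (D + 2).choose 2 ≤ ∑ i, (w i + 1).choose 2 := by
      rcases hd with hd | hd
      · omega
      · exact hd
    have h3 := crk_mono (w := w) (TF_mono hlt.le)
    have h4 : (d + 2).choose 2 ≤ (D + 2).choose 2 := Nat.choose_le_choose 2 (by omega)
    omega
  · exact crk_window hκ h hm (hD.trans (by exact_mod_cast hge))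

/-- **(4)** equal multiplicities: the degrees below the window -/
theorem crk_below {n d m κ : ℕ} {w : Fin n → ℕ} (hκ : 9 ≤ κ)
    (h : (univ.filter fun i => w i = m).card = κ) (hd : (d : ℝ) < √(κ : ℝ) * m) :
    crk (TF d) w = 0 := by
  by_contra hne
  have h1 := nagata_sub (k := κ) (e := d) (c := w) (S := univ.filter fun i => w i = m) hκ h.le
    (by omega)
  have h2 : ∑ i ∈ univ.filter (fun i => w i = m), w i = κ * m := by
    rw [sum_congr rfl (g := fun _ => m) fun i hi => (mem_filter.1 hi).2, sum_const, h,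
      smul_eq_mul]
  rw [h2] at h1
  push_cast at h1
  have h9 : (9 : ℝ) ≤ κ := by exact_mod_cast hκ
  have hr : (0 : ℝ) < √(κ : ℝ) := Real.sqrt_pos.2 (by linarith)
  have h3 : √(κ : ℝ) * d < √(κ : ℝ) * (√(κ : ℝ) * m) := mul_lt_mul_of_pos_left hd hr
  rw [← mul_assoc, Real.mul_self_sqrt (Nat.cast_nonneg κ)] at h3
  linarith

end Pool.Agent.H879.Pos
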