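import Pool.Agent.H879.Star.Apx

/-! Exactness from crude emptiness, relative to an arbitrary (possibly special) core. -/

set_option autoImplicit false

namespace Pool.Agent.H879.Pos

open Finset Pool.Agent.TH176.Nag Pool.Agent.TH603.Sur Pool.Agent.TH2 Pool.Agent.TH2.NU
open Pool.Agent.Y205.MD Pool.Agent.Y205.FW Pool.Agent.Y205.AV Pool.Agent.K7.H33.BP
open Pool.Agent.H879.Star

/-- the naive lower bound -/
theorem le_crkM_add {S : Finset (ℤ × ℤ)} (hpos : ∀ u ∈ S, 0 ≤ u.1 ∧ 0 ≤ u.2) (M W : Multiset ℕ) :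
    crkM S M ≤ crkM S (M + W) + NU.condM W := by
  induction W using Multiset.induction_on with
  | empty =>
    rw [add_zero, condM_zero]
    omega
  | cons a W ih =>
    have h1 := crkM_drop hpos (M + W) a
    have e : M + a ::ₘ W = M + W + {a} := by
      rw [← Multiset.singleton_add, add_assoc, add_comm {a} W]
    have hca : NU.condM (a ::ₘ W) = (a + 1).choose 2 + NU.condM W := by
      unfold Pool.Agent.TH2.NU.condM
      rw [Multiset.map_cons, Multiset.sum_cons]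
    rw [e, hca]
    omega

/-- approximate emptiness -/
def CEX' (B : ℕ) (R : Finset (ℤ × ℤ)) (M : Multiset ℕ) (N E : ℕ) : Prop :=
  ∀ W : Multiset ℕ, (∀ v ∈ W, 1 ≤ v ∧ v ≤ B) → NU.condM W ≤ N →
    crkM R (M + W) = 0 ∨ 2 * crkM R (M + W) + 2 * NU.condM W ≤ 2 * N + E

/-- **Crude independence from approximate emptiness.** -/
theorem ind_of_cex' {B E N : ℕ} {R : Finset (ℤ × ℤ)} {M : Multiset ℕ}
    (hpos : ∀ u ∈ R, 0 ≤ u.1 ∧ 0 ≤ u.2) (hN : crkM R M = N)
    (hc : CEX' B R M N E) (W : Multiset ℕ) (hW : ∀ v ∈ W, v ≤ B)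
    (hsl : NU.condM W + (E + 2) * (B + 1).choose 2 ≤ N) :
    crkM R (M + W) + NU.condM W ≤ N := by
  -- first the positive multiplicities
  have key : ∀ W : Multiset ℕ, (∀ v ∈ W, 1 ≤ v ∧ v ≤ B) →
      NU.condM W + (E + 2) * (B + 1).choose 2 ≤ N →
      crkM R (M + W) + NU.condM W ≤ N := by
    intro W
    induction W using Multiset.induction_on with
    | empty =>
      intro _ _
      rw [add_zero, condM_zero]
      omega
    | cons a W ih =>
      intro hW hsl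
      have hca : NU.condM (a ::ₘ W) = (a + 1).choose 2 + NU.condM W := by
        unfold Pool.Agent.TH2.NU.condM
        rw [Multiset.map_cons, Multiset.sum_cons]
      have hIH := ih (fun v hv => hW v (Multiset.mem_cons_of_mem hv)) (by omega)
      by_contra hcon
      -- the first deficient step
      have hex : ∃ t, t ≤ a ∧ N < crkM R (M + W + {t}) + NU.condM W +
          (t + 1).choose 2 := by
        refine ⟨a, le_rfl, ?_⟩
        have e : M + W + {a} = M + a ::ₘ W := by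
          rw [← Multiset.singleton_add, add_assoc, add_comm W]
        rw [e]
        omega
      obtain ⟨t, ht⟩ : ∃ t, t = Nat.find hex := ⟨_, rfl⟩
      obtain ⟨ht1, ht2⟩ := Nat.find_spec hex
      rw [← ht] at ht1 ht2
      rcases t with _ | s
      · have h1 : crkM R (M + W + {0}) ≤ crkM R (M + W) := crkM_more hpos _ _
        have h5 : (0 + 1).choose 2 = 0 := by decide
        rw [h5] at ht2
        omega
      · have hs := Nat.find_min hex (m := s) (by omega)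
        push Not at hs
        have hs2 := hs (by omega)
        have h4 := choose_two_succ s
        have hdef := defic hpos (N := M + W) (s := s) (by omega) (E + 1)
        have hlow := le_crkM_add hpos M W
        -- the approximate emptiness for the large multiset
        have hsB : s + 1 ≤ B := by
          have := (hW a (Multiset.mem_cons_self a W)).2
          omega
        have hch : (s + 1 + 1).choose 2 ≤ (B + 1).choose 2 := Nat.choose_le_choose 2 (by omega)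
        have hpos1 : 1 ≤ (s + 1 + 1).choose 2 := by omega
        have hm1 : (E + 2) * (s + 1 + 1).choose 2 ≤ (E + 2) * (B + 1).choose 2 :=
          Nat.mul_le_mul_left _ hch
        have e2 : (E + 2) * (s + 1 + 1).choose 2 =
            (E + 1) * (s + 1 + 1).choose 2 + (s + 1 + 1).choose 2 := by ring
        have hW' : NU.condM (W + Multiset.replicate (E + 1) (s + 1)) =
            NU.condM W + (E + 1) * (s + 1 + 1).choose 2 := by
          rw [NU.condM_add, condM_rep]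
        rcases hc (W + Multiset.replicate (E + 1) (s + 1)) (by
            intro v hv
            rcases Multiset.mem_add.1 hv with h | h
            · exact hW v (Multiset.mem_cons_of_mem h)
            · rw [Multiset.eq_of_mem_replicate h]
              omega) (by
            rw [hW']
            omega) with h6 | h6
        · rw [← add_assoc] at h6
          omega
        · rw [← add_assoc, hW'] at h6
          omega
  -- the zeros
  have hz : ∃ W1 k, W = W1 + Multiset.replicate k 0 ∧ ∀ v ∈ W1, 1 ≤ v ∧ v ≤ B := by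
    refine ⟨W.filter (fun v => v ≠ 0), Multiset.card (W.filter fun v => ¬ v ≠ 0), ?_, ?_⟩
    · conv_lhs => rw [← Multiset.filter_add_not (fun v => v ≠ 0) W]
      congr 1
      rw [Multiset.eq_replicate]
      refine ⟨rfl, fun b hb => ?_⟩
      have := (Multiset.mem_filter.1 hb).2
      push Not at this
      exact this
    · intro v hv
      obtain ⟨h1, h2⟩ := Multiset.mem_filter.1 hv
      exact ⟨by omega, hW v h1⟩
  obtain ⟨W1, k, rfl, h1⟩ := hz
  have h0 : NU.condM (Multiset.replicate k 0) = 0 := by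
    rw [condM_rep]
    simp
  rw [NU.condM_add, h0, add_zero] at hsl ⊢
  have h2 := key W1 h1 hsl
  have h3 := crkM_more hpos (M + W1) (Multiset.replicate k 0)
  rw [add_assoc] at h3
  omega

/-- **Approximate emptiness from crude emptiness.** -/
theorem cex_of_crude' {B k P E' N : ℕ} {R : Finset (ℤ × ℤ)} {M : Multiset ℕ}
    (hpos : ∀ u ∈ R, 0 ≤ u.1 ∧ 0 ≤ u.2)
    (hcr : ∀ W : Multiset ℕ, (∀ v ∈ W, 1 ≤ v ∧ v ≤ 2 ^ k * (B + 1)) →
      crkM R (M + W) = 0 ∨ 2 * crkM R (M + W) + sqs W ≤ 2 * N + E')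
    (hP : N ≤ 2 ^ k * P) :
    CEX' B R M N (E' + P + 4 ^ k * B ^ 2 + 1) := by
  classical
  intro W hW hcond
  right
  obtain ⟨n, w, hwW, hmem⟩ : ∃ (n : ℕ) (w : Fin n → ℕ),
      (∀ t : ℕ → ℕ, ∑ p, t (w p) = (W.map t).sum) ∧
      ∀ p, w p ∈ W := ⟨_, vec W, fun t => sum_vec W t, fun p => by
    unfold vec
    rw [← Multiset.mem_toList]
    exact List.get_mem _ _⟩
  obtain ⟨V, hV⟩ : ∃ V : Finset ℕ, V = univ.image w := ⟨_, rfl⟩
  have hVv : ∀ v ∈ V, 1 ≤ v ∧ v ≤ B := by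
    intro v hv
    rw [hV] at hv
    obtain ⟨p, -, hp⟩ := mem_image.1 hv
    rw [← hp]
    exact hW _ (hmem p)
  obtain ⟨T, hTd⟩ : ∃ T, T = ∑ p, (w p + 1).choose 2 := ⟨_, rfl⟩
  have hT2 : NU.condM W = T := by
    rw [hTd, hwW fun x => (x + 1).choose 2]
    rfl
  rw [hT2] at hcond ⊢
  have hq0 : 0 < 4 ^ k := by positivity
  obtain ⟨Nf, hNf⟩ : ∃ Nf : ℕ → ℕ, ∀ v, Nf v = nb w v / 4 ^ k := ⟨_, fun _ => rfl⟩
  obtain ⟨Rf, hRf⟩ : ∃ Rf : ℕ → ℕ, ∀ v, Rf v = nb w v % 4 ^ k := ⟨_, fun _ => rfl⟩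
  have hNR : ∀ v, 4 ^ k * Nf v + Rf v = nb w v := fun v => by
    rw [hNf, hRf]
    exact Nat.div_add_mod _ _
  have hRk : ∀ v, Rf v ≤ 4 ^ k := fun v => by
    rw [hRf]
    exact (Nat.mod_lt (nb w v) hq0).le
  obtain ⟨E0, hE⟩ : ∃ E0 : Multiset ℕ, E0 = ∑ v ∈ V, Multiset.replicate (Rf v) v := ⟨_, rfl⟩
  have hEsum : ∀ t : ℕ → ℕ, (E0.map t).sum = ∑ v ∈ V, Rf v * t v := by
    intro t
    rw [hE, map_sum_fin]
    refine sum_congr rfl fun v _ => ?_
    rw [Multiset.map_replicate, Multiset.sum_replicate]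
    rfl
  have hwsum : ∀ t : ℕ → ℕ, ∑ p, t (w p) = ∑ v ∈ V, nb w v * t v := by
    intro t
    rw [Finset.sum_comp t w, hV]
    rfl
  have hw : ∀ t : ℕ → ℕ, ((M + W).map t).sum =
      ((∑ v ∈ V, Multiset.replicate (4 ^ k * Nf v) v + (E0 + M)).map t).sum := by
    intro t
    rw [Multiset.map_add, Multiset.sum_add, Multiset.map_add, Multiset.sum_add, Multiset.map_add,
      Multiset.sum_add, hEsum, map_sum_fin, ← hwW, hwsum, ← add_assoc, add_comm (M.map t).sum]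
    congr 1
    rw [← sum_add_distrib]
    refine sum_congr rfl fun v _ => ?_
    rw [Multiset.map_replicate, Multiset.sum_replicate, smul_eq_mul, ← hNR v]
    ring
  obtain ⟨c, hc⟩ : ∃ c, c = (2 * N + (E' + P + 4 ^ k * B ^ 2 + 1) - 2 * T) / 2 := ⟨_, rfl⟩
  have hfin : crkM R (M + W) ≤ c := by
    rw [crkM_sum hw]
    refine classes_acc hpos k Nf V fun a g0 g1 hleaf => ?_
    have hlo : ∀ v ∈ V, 2 ^ k * v ≤ a v := fun v hv => (hleaf v hv).lo
    have hhi : ∀ v ∈ V, a v + 1 ≤ 2 ^ k * (v + 1) := fun v hv => (hleaf v hv).hi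
    obtain ⟨A, hM⟩ : ∃ A, A = ∑ v ∈ V, Multiset.replicate (Nf v) (a v) + E0 := ⟨_, rfl⟩
    rw [← add_assoc, ← hM, add_comm A M]
    have hMsum : ∀ t : ℕ → ℕ, (A.map t).sum = ∑ v ∈ V, (Nf v * t (a v) + Rf v * t v) := by
      intro t
      rw [hM, Multiset.map_add, Multiset.sum_add, hEsum, map_sum_fin, ← sum_add_distrib]
      refine sum_congr rfl fun v _ => ?_
      rw [Multiset.map_replicate, Multiset.sum_replicate, smul_eq_mul]
    have hMV : ∀ x ∈ A, ∃ v ∈ V, x = a v ∨ x = v := by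
      intro x hx
      rw [hM, Multiset.mem_add, hE] at hx
      rcases hx with hx | hx
      · obtain ⟨v, hv, hx⟩ := mem_sum_fin V _ x hx
        exact ⟨v, hv, Or.inl (Multiset.eq_of_mem_replicate hx)⟩
      · obtain ⟨v, hv, hx⟩ := mem_sum_fin V _ x hx
        exact ⟨v, hv, Or.inr (Multiset.eq_of_mem_replicate hx)⟩
    have h2k : 1 ≤ 2 ^ k := Nat.one_le_two_pow
    have hA : ∀ v ∈ A, 1 ≤ v ∧ v ≤ 2 ^ k * (B + 1) := by
      intro x hx
      obtain ⟨v, hv, h | h⟩ := hMV _ hx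
      · have h1 := hlo v hv
        have h2 := hVv v hv
        have h3 := hhi v hv
        have h4 : 2 ^ k * (v + 1) ≤ 2 ^ k * (B + 1) := Nat.mul_le_mul_left _ (by omega)
        have h5 : 1 * v ≤ 2 ^ k * v := Nat.mul_le_mul_right _ h2k
        constructor <;> omega
      · have h2 := hVv v hv
        have h4 : 1 * (B + 1) ≤ 2 ^ k * (B + 1) := Nat.mul_le_mul_right _ h2k
        constructor <;> omega
    obtain ⟨X, hX⟩ : ∃ X, X = ∑ v ∈ V, Nf v * v := ⟨_, rfl⟩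
    obtain ⟨e1, he1⟩ : ∃ e1, e1 = ∑ v ∈ V, Rf v * v := ⟨_, rfl⟩
    -- the sum of the multiplicities
    have hXP : 4 ^ k * X ≤ 2 ^ k * P := by
      have h1 : 4 ^ k * X ≤ ∑ v ∈ V, nb w v * (v + 1).choose 2 := by
        rw [hX, mul_sum]
        refine sum_le_sum fun v hv => ?_
        have h2 := hVv v hv
        have h3 : v ≤ (v + 1).choose 2 := by
          obtain ⟨u, rfl⟩ : ∃ u, v = u + 1 := ⟨v - 1, by omega⟩
          rw [choose_two_succ]
          omega
        calc 4 ^ k * (Nf v * v) = (4 ^ k * Nf v) * v := by ring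
          _ ≤ nb w v * v := Nat.mul_le_mul_right _ (by rw [← hNR v]; omega)
          _ ≤ _ := Nat.mul_le_mul_left _ h3
      have h2 := hwsum fun x => (x + 1).choose 2
      rw [← h2, ← hTd] at h1
      omega
    have hXP2 : 2 ^ k * X ≤ P := by
      have e : 4 ^ k * X = 2 ^ k * (2 ^ k * X) := by
        rw [show (4 : ℕ) = 2 * 2 from rfl, Nat.mul_pow]
        ring
      rw [e] at hXP
      exact Nat.le_of_mul_le_mul_left hXP (by omega)
    have he1' : e1 ≤ 4 ^ k * B ^ 2 := by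
      have h1 : e1 ≤ 4 ^ k * ∑ v ∈ V, v := by
        rw [he1, mul_sum]
        exact sum_le_sum fun v _ => Nat.mul_le_mul_right _ (hRk v)
      have h2 : ∑ v ∈ V, v ≤ B ^ 2 := by
        have h3 : ∑ v ∈ V, v ≤ ∑ v ∈ Finset.Icc 1 B, B := by
          refine (sum_le_sum fun v hv => (hVv v hv).2).trans ?_
          exact sum_le_sum_of_subset fun v hv => Finset.mem_Icc.2 (hVv v hv)
        rw [sum_const, Nat.card_Icc, Nat.add_sub_cancel, smul_eq_mul] at h3
        rw [sq]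
        exact h3
      exact h1.trans (Nat.mul_le_mul_left _ h2)
    have hsum : A.sum ≤ 2 ^ k * X + 2 * ∑ v ∈ V, g1 v + e1 := by
      have h1 := hMsum fun x => x
      rw [Multiset.map_id'] at h1
      have h2 : ∑ v ∈ V, (Nf v * a v + Rf v * v) ≤
          ∑ v ∈ V, (2 ^ k * (Nf v * v) + 2 * g1 v + Rf v * v) := by
        refine sum_le_sum fun v hv => ?_
        have h3 := leaf_lin' (hVv v hv).1 (hlo v hv) (hleaf v hv).cd (hleaf v hv).gain
        omega
      rw [sum_add_distrib, sum_add_distrib, sum_add_distrib, ← mul_sum, ← mul_sum, ← hX, ← he1]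
        at h2
      rw [h1, sum_add_distrib, ← he1]
      exact h2
    have hcdA : NU.condM A + ∑ v ∈ V, g0 v = T + ∑ v ∈ V, g1 v := by
      have h1 := hMsum fun x => (x + 1).choose 2
      have h2 := hwsum fun x => (x + 1).choose 2
      have h3 : NU.condM A = ∑ v ∈ V, (Nf v * (a v + 1).choose 2 + Rf v * (v + 1).choose 2) := h1
      rw [h3, hTd, h2, ← sum_add_distrib, ← sum_add_distrib]
      refine sum_congr rfl fun v hv => ?_
      have h4 := (hleaf v hv).cd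
      have e : nb w v * (v + 1).choose 2 = 4 ^ k * Nf v * (v + 1).choose 2 +
          Rf v * (v + 1).choose 2 := by
        rw [← hNR v]
        ring
      omega
    have h2c := two_condM A
    rcases hcr A hA with h0 | h0
    · rw [h0]
      exact Nat.zero_le _
    · omega
  omega

theorem leaf_big' {B E N : ℕ} {R : Finset (ℤ × ℤ)} {M : Multiset ℕ}
    (hce : ∀ W : Multiset ℕ, (∀ v ∈ W, 1 ≤ v ∧ v ≤ B) →
      crkM R (M + W) = 0 ∨ 2 * crkM R (M + W) + sqs W ≤ 2 * N + E)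
    (hcs : ∀ W : Multiset ℕ, (∀ v ∈ W, v + 1 ≤ B) → sq1 W + E ≤ 2 * N →
      crkM R (M + W) + NU.condM W ≤ N)
    {A : Multiset ℕ} {μ c G0 G1 T X L δ e0 e1 : ℕ} (hB : B = 8 * (μ + 1))
    (hM : ∀ x ∈ A, 1 ≤ x ∧ x + 1 ≤ 8 * (μ + 1)) (hL : 17 * A.sum ≤ 136 * X + 4 * G1 + 17 * e1)
    (hn : A.card ≤ X + e0) (he1 : 2 * e1 ≤ 63 * (μ + 1) ^ 2) (he0 : 4 * e0 ≤ 63 * (μ + 1) ^ 2)
    (hX : L = 64 * X + e1) (hcd : NU.condM A + G0 = T + G1) (hgain : 56 * X ≤ 2 * (G0 + G1))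
    (hδ : 2 * N = 2 * T + δ ∨ 2 * N + δ = 2 * T)
    (h : 8 * E + 320 * (μ + 1) ^ 2 ≤ L + 2 * δ) (hc : N ≤ c + T) :
    crkM R (M + A) ≤ c + G0 := by
  subst hB
  obtain ⟨P, hP⟩ : ∃ P, P = (μ + 1) ^ 2 := ⟨_, rfl⟩
  rw [← hP] at he1 he0 h
  have hc2 := two_condM A
  have hsq := sq1_eq A
  by_cases hsur : sq1 A + E ≤ 2 * N
  · have h1 := hcs A (fun v hv => (hM v hv).2) hsur
    omega
  · push Not at hsur
    rcases hce A (fun v hv => ⟨(hM v hv).1, by have := (hM v hv).2; omega⟩) with h0 | h0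
    · rw [h0]
      exact Nat.zero_le _
    · omega

/-- exactness of small multiplicities -/
theorem ex_big' {μ δ E N : ℕ} {R : Finset (ℤ × ℤ)} {M W : Multiset ℕ}
    (hR0 : ∀ u ∈ R, 0 ≤ u.1 ∧ 0 ≤ u.2)
    (hce : ∀ W : Multiset ℕ, (∀ v ∈ W, 1 ≤ v ∧ v ≤ 8 * (μ + 1)) →
      crkM R (M + W) = 0 ∨ 2 * crkM R (M + W) + sqs W ≤ 2 * N + E)
    (hcs : ∀ W : Multiset ℕ, (∀ v ∈ W, v + 1 ≤ 8 * (μ + 1)) →
      sq1 W + E ≤ 2 * N → crkM R (M + W) + NU.condM W ≤ N)
    (hW : ∀ v ∈ W, 1 ≤ v ∧ v ≤ μ)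
    (hδ : 2 * N = 2 * NU.condM W + δ ∨ 2 * N + δ = 2 * NU.condM W)
    (h : 8 * E + 320 * (μ + 1) ^ 2 ≤ W.sum + 2 * δ) :
    crkM R (M + W) ≤ N - NU.condM W := by
  classical
  obtain ⟨n, w, hwW⟩ : ∃ (n : ℕ) (w : Fin n → ℕ), (∀ t : ℕ → ℕ, ∑ p, t (w p) = (W.map t).sum) ∧
      ∀ p, w p ∈ W := ⟨_, vec W, fun t => sum_vec W t, fun p => by
    unfold vec
    rw [← Multiset.mem_toList]
    exact List.get_mem _ _⟩
  obtain ⟨hwW, hmem⟩ := hwW
  have hpos : ∀ p, 1 ≤ w p := fun p => (hW _ (hmem p)).1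
  have hμ : ∀ p, w p ≤ μ := fun p => (hW _ (hmem p)).2
  obtain ⟨V, hV⟩ : ∃ V : Finset ℕ, V = univ.image w := ⟨_, rfl⟩
  have hVv : ∀ v ∈ V, 1 ≤ v ∧ v ≤ μ := by
    intro v hv
    rw [hV] at hv
    obtain ⟨p, -, hp⟩ := mem_image.1 hv
    rw [← hp]
    exact ⟨hpos p, hμ p⟩
  obtain ⟨L, hL⟩ : ∃ L, L = ∑ p, w p := ⟨_, rfl⟩
  obtain ⟨T, hTd⟩ : ∃ T, T = ∑ p, (w p + 1).choose 2 := ⟨_, rfl⟩
  have hT2 : NU.condM W = T := by
    rw [hTd, hwW fun x => (x + 1).choose 2]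
    rfl
  have hL2 : W.sum = L := by
    rw [hL, hwW fun x => x, Multiset.map_id']
  rw [hT2] at hδ ⊢
  rw [hL2] at h
  -- the classes
  obtain ⟨Nf, hNf⟩ : ∃ Nf : ℕ → ℕ, ∀ v, Nf v = nb w v / 64 := ⟨_, fun _ => rfl⟩
  obtain ⟨Rf, hRf⟩ : ∃ Rf : ℕ → ℕ, ∀ v, Rf v = nb w v % 64 := ⟨_, fun _ => rfl⟩
  have hNR : ∀ v, 64 * Nf v + Rf v = nb w v := fun v => by
    rw [hNf, hRf]
    exact Nat.div_add_mod _ _
  have hR63 : ∀ v, Rf v ≤ 63 := fun v => by
    rw [hRf]
    have := Nat.mod_lt (nb w v) (show 0 < 64 by norm_num)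
    omega
  obtain ⟨E', hE⟩ : ∃ E' : Multiset ℕ, E' = ∑ v ∈ V, Multiset.replicate (Rf v) v := ⟨_, rfl⟩
  have hEsum : ∀ t : ℕ → ℕ, (E'.map t).sum = ∑ v ∈ V, Rf v * t v := by
    intro t
    rw [hE, map_sum_fin]
    refine sum_congr rfl fun v _ => ?_
    rw [Multiset.map_replicate, Multiset.sum_replicate]
    rfl
  have hwsum : ∀ t : ℕ → ℕ, ∑ p, t (w p) = ∑ v ∈ V, nb w v * t v := by
    intro t
    rw [Finset.sum_comp t w, hV]
    rfl
  have hw : ∀ t : ℕ → ℕ, ((M + W).map t).sum =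
      ((∑ v ∈ V, Multiset.replicate (4 ^ 3 * Nf v) v + (E' + M)).map t).sum := by
    intro t
    rw [Multiset.map_add, Multiset.sum_add, Multiset.map_add, Multiset.sum_add, Multiset.map_add,
      Multiset.sum_add, hEsum, map_sum_fin, ← hwW, hwsum, ← add_assoc, add_comm (M.map t).sum]
    congr 1
    rw [← sum_add_distrib]
    refine sum_congr rfl fun v _ => ?_
    rw [Multiset.map_replicate, Multiset.sum_replicate, smul_eq_mul, ← hNR v]
    ring
  rw [crkM_sum hw]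
  refine classes_acc hR0 3 Nf V fun a g0 g1 hleaf => ?_
  have hlo : ∀ v ∈ V, 8 * v ≤ a v := fun v hv => by simpa using (hleaf v hv).lo
  have hhi : ∀ v ∈ V, a v + 1 ≤ 8 * (v + 1) := fun v hv => by simpa using (hleaf v hv).hi
  have hcd : ∀ v ∈ V, Nf v * (a v + 1).choose 2 + g0 v =
      64 * Nf v * (v + 1).choose 2 + g1 v := fun v hv => by simpa using (hleaf v hv).cd
  have hga : ∀ v ∈ V, Nf v * v * 64 ≤ 2 * (g0 v + g1 v) + Nf v * v * 8 := fun v hv => by
    simpa using (hleaf v hv).gain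
  obtain ⟨A, hM⟩ : ∃ A, A = ∑ v ∈ V, Multiset.replicate (Nf v) (a v) + E' := ⟨_, rfl⟩
  rw [← add_assoc, ← hM, add_comm A M]
  have hMsum : ∀ t : ℕ → ℕ, (A.map t).sum = ∑ v ∈ V, (Nf v * t (a v) + Rf v * t v) := by
    intro t
    rw [hM, Multiset.map_add, Multiset.sum_add, hEsum, map_sum_fin, ← sum_add_distrib]
    refine sum_congr rfl fun v _ => ?_
    rw [Multiset.map_replicate, Multiset.sum_replicate, smul_eq_mul]
  have hMV : ∀ x ∈ A, ∃ v ∈ V, x = a v ∨ x = v := by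
    intro x hx
    rw [hM, Multiset.mem_add, hE] at hx
    rcases hx with hx | hx
    · obtain ⟨v, hv, hx⟩ := mem_sum_fin V _ x hx
      exact ⟨v, hv, Or.inl (Multiset.eq_of_mem_replicate hx)⟩
    · obtain ⟨v, hv, hx⟩ := mem_sum_fin V _ x hx
      exact ⟨v, hv, Or.inr (Multiset.eq_of_mem_replicate hx)⟩
  obtain ⟨X, hX⟩ : ∃ X, X = ∑ v ∈ V, Nf v * v := ⟨_, rfl⟩
  obtain ⟨e1, he1⟩ : ∃ e1, e1 = ∑ v ∈ V, Rf v * v := ⟨_, rfl⟩
  obtain ⟨e0, he0⟩ : ∃ e0, e0 = ∑ v ∈ V, Rf v := ⟨_, rfl⟩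
  have hVsub : V ⊆ Finset.Icc 1 μ := fun v hv => Finset.mem_Icc.2 (hVv v hv)
  have hLX : L = 64 * X + e1 := by
    have h1 := hwsum fun x => x
    rw [hL, h1, hX, he1, mul_sum, ← sum_add_distrib]
    refine sum_congr rfl fun v _ => ?_
    rw [← hNR v]
    ring
  have hsumV : 2 * ∑ v ∈ V, v ≤ μ * (μ + 1) := by
    have h1 : ∑ v ∈ V, v ≤ ∑ v ∈ Finset.range (μ + 1), v :=
      sum_le_sum_of_subset fun v hv => by
        rw [Finset.mem_range]
        have := (hVv v hv).2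
        omega
    have h2 := Finset.sum_range_id_mul_two (μ + 1)
    rw [Nat.add_sub_cancel] at h2
    have e : μ * (μ + 1) = (μ + 1) * μ := mul_comm _ _
    omega
  have hcardV : V.card ≤ μ := by
    have := card_le_card hVsub
    rwa [Nat.card_Icc, Nat.add_sub_cancel] at this
  have hP1 : μ * (μ + 1) ≤ (μ + 1) ^ 2 := by
    rw [sq]
    exact Nat.mul_le_mul_right _ (Nat.le_succ μ)
  have hP2 : 4 * μ ≤ (μ + 1) ^ 2 := by
    zify
    have := sq_nonneg ((μ : ℤ) - 1)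
    linarith [this]
  refine leaf_big' hce hcs (c := N - T) (G0 := ∑ v ∈ V, g0 v)
    (G1 := ∑ v ∈ V, g1 v) (T := T) (X := X) (L := L) (δ := δ) (e0 := e0) (e1 := e1) rfl
    ?_ ?_ ?_ ?_ ?_ hLX ?_ ?_ hδ h (by omega)
  · intro x hx
    obtain ⟨v, hv, h | h⟩ := hMV _ hx
    · have h1 := hlo v hv
      have h2 := hVv v hv
      have h3 := hhi v hv
      constructor <;> omega
    · have h2 := hVv v hv
      constructor <;> omega
  · have h1 := hMsum fun x => x
    rw [Multiset.map_id'] at h1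
    have h2 : ∑ v ∈ V, 17 * (Nf v * a v + Rf v * v) ≤
        ∑ v ∈ V, (136 * (Nf v * v) + 4 * g1 v + 17 * (Rf v * v)) := by
      refine sum_le_sum fun v hv => ?_
      have h3 := leaf_lin (hVv v hv).1 (hlo v hv) (hcd v hv) (hga v hv)
      omega
    have h4 : ∑ v ∈ V, (136 * (Nf v * v) + 4 * g1 v + 17 * (Rf v * v)) =
        136 * X + 4 * ∑ v ∈ V, g1 v + 17 * e1 := by
      rw [sum_add_distrib, sum_add_distrib, ← mul_sum, ← mul_sum, ← mul_sum, ← hX, ← he1]
    rw [← mul_sum] at h2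
    rw [h1]
    omega
  · have h1 := hMsum fun _ => 1
    simp only [mul_one, Multiset.map_const', Multiset.sum_replicate, smul_eq_mul] at h1
    rw [h1, sum_add_distrib, ← he0]
    refine Nat.add_le_add_right ?_ _
    rw [hX]
    refine sum_le_sum fun v hv => ?_
    calc Nf v = Nf v * 1 := (mul_one _).symm
      _ ≤ Nf v * v := Nat.mul_le_mul_left _ (hVv v hv).1
  · have h1 : e1 ≤ 63 * ∑ v ∈ V, v := by
      rw [he1, mul_sum]
      exact sum_le_sum fun v _ => Nat.mul_le_mul_right _ (hR63 v)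
    omega
  · have h1 : e0 ≤ 63 * V.card := by
      rw [he0]
      refine (sum_le_sum fun v _ => hR63 v).trans ?_
      rw [sum_const, smul_eq_mul, mul_comm]
    omega
  · have h1 := hMsum fun x => (x + 1).choose 2
    have h2 := hwsum fun x => (x + 1).choose 2
    have h3 : Pool.Agent.TH2.NU.condM A =
      ∑ v ∈ V, (Nf v * (a v + 1).choose 2 + Rf v * (v + 1).choose 2) := h1
    rw [h3, hTd, h2, ← sum_add_distrib, ← sum_add_distrib]
    refine sum_congr rfl fun v hv => ?_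
    have h4 := hcd v hv
    have e : nb w v * (v + 1).choose 2 = 64 * Nf v * (v + 1).choose 2 +
        Rf v * (v + 1).choose 2 := by
      rw [← hNR v]
      ring
    omega
  · have h1 : ∑ v ∈ V, Nf v * v * 64 ≤ ∑ v ∈ V, (2 * (g0 v + g1 v) + Nf v * v * 8) :=
      sum_le_sum hga
    rw [sum_add_distrib, ← mul_sum, sum_add_distrib, ← sum_mul, ← sum_mul, ← hX] at h1
    omega

/-- **Exactness from crude emptiness.** -/
theorem ex_of_crude' {μ k P E' δ N : ℕ} {R : Finset (ℤ × ℤ)} {M W : Multiset ℕ}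
    (hpos : ∀ u ∈ R, 0 ≤ u.1 ∧ 0 ≤ u.2) (hN : crkM R M = N)
    (hcr : ∀ W : Multiset ℕ, (∀ v ∈ W, 1 ≤ v ∧ v ≤ 2 ^ k * (8 * (μ + 1))) →
      crkM R (M + W) = 0 ∨ 2 * crkM R (M + W) + sqs W ≤ 2 * N + E')
    (hP : N ≤ 2 ^ k * P)
    (hW : ∀ v ∈ W, 1 ≤ v ∧ v ≤ μ)
    (hδ : 2 * N = 2 * NU.condM W + δ ∨ 2 * N + δ = 2 * NU.condM W)
    (h : 8 * bigE μ k P E' + 320 * (μ + 1) ^ 2 ≤ W.sum + 2 * δ) :
    crkM R (M + W) ≤ N - NU.condM W := by
  obtain ⟨B, hB⟩ : ∃ B, B + 1 = 8 * (μ + 1) := ⟨8 * (μ + 1) - 1, by omega⟩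
  have hcx := cex_of_crude' (B := B) (k := k) (P := P) (E' := E') (N := N) hpos
    (by rw [hB]; exact hcr) hP
  have hind2 := ind_of_cex' hpos hN hcx
  obtain ⟨Y, hY⟩ : ∃ Y, Y = (μ + 1) ^ 2 := ⟨_, rfl⟩
  have hY1 : 1 ≤ Y := by
    rw [hY]
    exact Nat.one_le_pow _ _ (by omega)
  have hB2 : B ^ 2 ≤ 64 * Y := by
    have h1 : B ≤ 8 * (μ + 1) := by omega
    calc B ^ 2 ≤ (8 * (μ + 1)) ^ 2 := Nat.pow_le_pow_left h1 2
      _ = 64 * Y := by rw [hY]; ring
  have h2B : 2 * (B + 1).choose 2 ≤ 64 * Y := by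
    have h1 : 2 * (B + 1).choose 2 = B * (B + 1) := by
      rw [Nat.choose_two_right, Nat.add_sub_cancel, Nat.mul_div_cancel', mul_comm]
      rw [mul_comm]
      exact (Nat.even_mul_succ_self _).two_dvd
    rw [h1]
    calc B * (B + 1) ≤ (B + 1) * (B + 1) := Nat.mul_le_mul_right _ (by omega)
      _ = 64 * Y := by rw [hB, hY]; ring
  obtain ⟨E2, hE2⟩ : ∃ E2, E2 = E' + P + 4 ^ k * B ^ 2 + 1 := ⟨_, rfl⟩
  have hEb : 2 * ((E2 + 2) * (B + 1).choose 2) ≤ bigE μ k P E' := by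
    unfold bigE
    rw [← hY]
    have h1 : E2 + 2 ≤ E' + P + 4 ^ k * (64 * Y) + 3 := by
      have := Nat.mul_le_mul_left (4 ^ k) hB2
      omega
    calc 2 * ((E2 + 2) * (B + 1).choose 2) = (E2 + 2) * (2 * (B + 1).choose 2) := by ring
      _ ≤ (E' + P + 4 ^ k * (64 * Y) + 3) * (64 * Y) := Nat.mul_le_mul h1 h2B
      _ = _ := by ring
  have hE1 : E' ≤ bigE μ k P E' := by
    unfold bigE
    rw [← hY]
    calc E' ≤ E' + P + 4 ^ k * (64 * Y) + 3 := by omega
      _ = 1 * (E' + P + 4 ^ k * (64 * Y) + 3) := (one_mul _).symm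
      _ ≤ _ := Nat.mul_le_mul_right _ (by omega)
  refine ex_big' (E := bigE μ k P E') hpos ?_ ?_ hW hδ h
  · intro W' hW'
    have h2k : 1 ≤ 2 ^ k := Nat.one_le_two_pow
    rcases hcr W' fun v hv => ⟨(hW' v hv).1, by
        have h4 : 1 * (8 * (μ + 1)) ≤ 2 ^ k * (8 * (μ + 1)) := Nat.mul_le_mul_right _ h2k
        have := (hW' v hv).2
        omega⟩ with h0 | h0
    · exact Or.inl h0
    · right
      omega
  · intro W' hW' hs
    refine hind2 W' (fun v hv => by have := hW' v hv; omega) ?_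
    have h1 := sq1_eq W'
    have h2 := two_condM W'
    rw [← hE2]
    omega

end Pool.Agent.H879.Pos
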