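import Pool.Agent.H879.Pos.Crude
import Pool.Graph.R_seed8.TH545.SD.Conv
import Pool.Graph.R_seed8.TH167.SH.Gen
import Pool.Graph.R_seed8.Y205.MD.Gen
import Pool.Graph.R_pool_sql_team_seeded_35f281b4.K7.H33.BP.Sq

/-! The corank of the lattice triangle is the dimension of the space of forms at general points. -/

set_option autoImplicit false

namespace Pool.Agent.H879.Pos

section lau

open Polynomial Finset Pool.Agent.H932R2 Pool.Agent.H932R3 Pool.Agent.TH603.Sur
  Pool.Agent.TH545.SD Pool.Agent.TH763.DB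
open Pool.Agent.TH176.Nag (Emp LM pr PF PF_desc2)
open Pool.Agent.TH387.SH (TF coe_TF card_TF)

variable {K : Type} [Field K]

/-- polynomials as Laurent polynomials, linear -/
noncomputable def tlL (K : Type) [Field K] : K[X][X] →ₗ[K] ((ℤ × ℤ) →₀ K) where
  toFun f := (tl K f).coeff
  map_add' f g := by
    rw [map_add, AddMonoidAlgebra.coeff_add]
  map_smul' c f := by
    have h1 : c • f = C (C c) * f := by
      rw [Algebra.smul_def, Polynomial.algebraMap_apply, Polynomial.algebraMap_eq]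
    have h2 : tl K (C (C c)) = algebraMap K _ c := by
      unfold tl
      simp only [coe_eval₂RingHom, eval₂_C]
    rw [h1, map_mul, h2, ← Algebra.smul_def, AddMonoidAlgebra.coeff_smul, RingHom.id_apply]

theorem tlL_mon (p : ℕ × ℕ) : tlL K (Pool.Agent.H932R2.mon K p) =
    Finsupp.single (((p.1 : ℤ), (p.2 : ℤ)) : ℤ × ℤ) 1 := by
  have h1 := tl_mon (K := K) 1 p
  rw [one_smul] at h1
  show (tl K (Pool.Agent.H932R2.mon K p)).coeff = _
  rw [h1, AddMonoidAlgebra.coeff_single]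

theorem tlL_mem {d : ℕ} {f : K[X][X]} (hf : f ∈ mspan K (Tset d)) :
    tlL K f ∈ Finsupp.supported K K (↑(TF d) : Set (ℤ × ℤ)) ∧ Psi K (tlL K f) = f := by
  unfold mspan at hf
  induction hf using Submodule.span_induction with
  | mem x hx =>
    obtain ⟨p, hp, rfl⟩ := hx
    rw [tlL_mon]
    constructor
    · rw [Finsupp.mem_supported]
      intro m hm
      have h1 := Finsupp.support_single_subset (mem_coe.1 hm)
      rw [mem_singleton] at h1
      subst h1
      rw [mem_Tset] at hp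
      rw [coe_TF]
      exact ⟨by simp, by simp, by simp only; omega⟩
    · rw [Pool.Agent.TH545.SD.Psi, Finsupp.linearCombination_single, one_smul]
      simp
  | zero => exact ⟨by rw [map_zero]; exact Submodule.zero_mem _, by rw [map_zero, map_zero]⟩
  | add x y _ _ hx hy =>
    exact ⟨by rw [map_add]; exact Submodule.add_mem _ hx.1 hy.1, by
      rw [map_add, map_add, hx.2, hy.2]⟩
  | smul a x _ hx =>
    exact ⟨by rw [map_smul]; exact Submodule.smul_mem _ _ hx.1, by
      rw [map_smul, map_smul, hx.2]⟩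

theorem Psi_mem {d : ℕ} {f : (ℤ × ℤ) →₀ K}
    (hf : f ∈ Finsupp.supported K K (↑(TF d) : Set (ℤ × ℤ))) : Psi K f ∈ mspan K (Tset d) := by
  rw [Finsupp.mem_supported, coe_TF] at hf
  rw [Psi_apply]
  refine Submodule.sum_mem _ fun u hu => Submodule.smul_mem _ _ (Submodule.subset_span ⟨_, ?_, rfl⟩)
  obtain ⟨q1, q2, q3⟩ := hf (mem_coe.2 hu)
  rw [mem_Tset]
  omega

theorem TF_pos {d : ℕ} : ∀ u ∈ TF d, 0 ≤ u.1 ∧ 0 ≤ u.2 := fun u hu => by
  have h : u ∈ (↑(TF d) : Set (ℤ × ℤ)) := mem_coe.2 hu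
  rw [coe_TF] at h
  exact ⟨h.1, h.2.1⟩

theorem finrank_sys [CharZero K] {n : ℕ} (w : Fin n → ℕ) (P : Fin n → Fin 2 → K)
    (hP : ∀ i j, P i j ≠ 0) (d : ℕ) :
    Module.finrank K ↥(Pool.Agent.H248R5.forms w P d) =
      Module.finrank K ↥(Sys (TF d) (fun i => P i 0) (fun i => P i 1) w) := by
  obtain ⟨J, hJ⟩ : ∃ J : Submodule K K[X][X], J = Submodule.restrictScalars K
    (vIdeal 1 w (fun a => P a 0) (fun a => C (P a 1))) := ⟨_, rfl⟩
  have h1 : Module.finrank K ↥(Pool.Agent.H248R5.forms w P d) =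
      Module.finrank K ↥(mspan K (Tset d) ⊓ J) := by
    unfold Pool.Agent.H248R5.forms
    refine finrank_forms _ J fun F hF => ?_
    rw [Submodule.restrictScalars_mem, hJ, Submodule.restrictScalars_mem]
    unfold vIdeal
    rw [Ideal.mem_iInf, Ideal.mem_iInf]
    exact forall_congr' fun i => mem_ptIdeal_iff hF
  rw [h1]
  have hto : ∀ f ∈ mspan K (Tset d) ⊓ J, tlL K f ∈
      Sys (TF d) (fun i => P i 0) (fun i => P i 1) w := by
    rintro f ⟨hf1, hf2⟩
    unfold Sys
    refine Submodule.mem_inf.2 ⟨(tlL_mem hf1).1, (Submodule.mem_iInf _).2 fun i => ?_⟩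
    rw [hJ, SetLike.mem_coe, Submodule.restrictScalars_mem] at hf2
    unfold vIdeal at hf2
    rw [Ideal.mem_iInf] at hf2
    exact LM_of_cIdeal (hP i 0) (hP i 1) (hf2 i)
  have hfrom : ∀ f ∈ Sys (TF d) (fun i => P i 0) (fun i => P i 1) w,
      Psi K f ∈ mspan K (Tset d) ⊓ J := by
    intro f hf
    unfold Sys at hf
    obtain ⟨hf1, hf2⟩ := hf
    refine ⟨Psi_mem hf1, ?_⟩
    rw [hJ, SetLike.mem_coe, Submodule.restrictScalars_mem]
    unfold vIdeal
    rw [Ideal.mem_iInf]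
    intro i
    rw [SetLike.mem_coe, Submodule.mem_iInf] at hf2
    refine Psi_mem_cIdeal (hP i 0) (hP i 1) (fun u hu => ?_) (hf2 i)
    have h2 := (Finsupp.mem_supported _ _).1 hf1 (mem_coe.2 hu)
    exact TF_pos u (mem_coe.1 h2)
  refine LinearEquiv.finrank_eq (LinearEquiv.ofBijective
    (LinearMap.restrict (tlL K) hto) ⟨?_, ?_⟩)
  · intro f g hfg
    have h2 : tlL K f.1 = tlL K g.1 := congrArg Subtype.val hfg
    have h3 := congrArg (Psi K) h2
    rw [(tlL_mem f.2.1).2, (tlL_mem g.2.1).2] at h3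
    exact Subtype.ext h3
  · rintro ⟨f, hf⟩
    refine ⟨⟨Psi K f, hfrom f hf⟩, Subtype.ext ?_⟩
    show tlL K (Psi K f) = f
    have h2 := tlL_mem (hfrom f hf).1
    have h3 : Psi K (tlL K (Psi K f) - f) = 0 := by
      rw [map_sub, h2.2, sub_self]
    have h4 : tlL K (Psi K f) - f ∈ Finsupp.supported K K (↑(TF d) : Set (ℤ × ℤ)) :=
      Submodule.sub_mem _ h2.1 hf.1
    have h5 := Psi_injOn (f := tlL K (Psi K f) - f) (fun u hu =>
      TF_pos u (mem_coe.1 ((Finsupp.mem_supported _ _).1 h4 (mem_coe.2 hu)))) h3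
    exact sub_eq_zero.1 h5

end lau

open MvPolynomial Pool.Agent.W609 Pool.Agent.W609.CR Pool.Agent.TH167.SH Pool.Agent.TH167.TT
  Pool.Agent.H248R5 Pool.Agent.H248R6
open Pool.Agent.Y205.MD
open Pool.Agent.TH387.SH (TF coe_TF card_TF)

/-- the generic points -/
noncomputable def gP (n : ℕ) : Fin n → Fin 2 → GK (Fin n) := fun i j => gp (Fin n) (i, j)

theorem gP_ind (n : ℕ) :
    AlgebraicIndependent ℚ (fun ij : Fin n × Fin 2 => gP n ij.1 ij.2) := by
  rw [algebraicIndependent_iff]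
  intro F hF
  by_contra hne
  exact aeval_gp_ne hne hF

theorem finrank_gP {n : ℕ} (w : Fin n → ℕ) (d : ℕ) :
    Module.finrank (GK (Fin n)) ↥(forms w (gP n) d) = crk (TF d) w := by
  rw [finrank_sys w (gP n) (fun i j => gp_ne _) d, ← finrank_GS TF_pos]
  rfl

/-- **The corank is the generic dimension.** -/
theorem finrank_open {n : ℕ} (w : Fin n → ℕ) (d : ℕ) :
    ∃ F : MvPolynomial (Fin n × Fin 2) ℚ, F ≠ 0 ∧ ∀ (K : Type) [Field K] [CharZero K]
      (P : Fin n → Fin 2 → K), aeval (fun ij : Fin n × Fin 2 => P ij.1 ij.2) F ≠ 0 →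
        Module.finrank K ↥(forms w P d) = crk (TF d) w := by
  obtain ⟨g, F, hF, h⟩ := dim_gen w d
  have h1 := h (GK (Fin n)) (gP n) (by
    intro h0
    exact evP_ne (gP_ind n) hF h0)
  rw [vs_eq_forms, finrank_gP] at h1
  refine ⟨F, hF, fun K _ _ P hP => ?_⟩
  have h2 := h K P hP
  rw [vs_eq_forms] at h2
  rw [h1, h2]

theorem finrank_ind {n : ℕ} (w : Fin n → ℕ) (d : ℕ) {K : Type} [Field K] [CharZero K]
    {P : Fin n → Fin 2 → K}
    (hP : AlgebraicIndependent ℚ (fun ij : Fin n × Fin 2 => P ij.1 ij.2)) :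
    Module.finrank K ↥(forms w P d) = crk (TF d) w := by
  obtain ⟨F, hF, h⟩ := finrank_open w d
  exact h K P (evP_ne hP hF)

end Pool.Agent.H879.Pos
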