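import Pool.Agent.H879.Pos.Fin
import Pool.Graph.R_seed8.TH648.SH.Plane
import Pool.Graph.R_seed8.TH868.NG.Fin

/-! Positivity by Nagata's inequality, and the general theorems over the complex numbers. -/

set_option autoImplicit false

namespace Pool.Agent.H879.Pos

open Finset Pool.Agent.TH176.Nag Pool.Agent.TH603.Sur Pool.Agent.TH2 Pool.Agent.TH2.NU
open Pool.Agent.Y205.MD Pool.Agent.Y205.FW Pool.Agent.Y205.AV Pool.Agent.K7.H33.BP
open Pool.Agent.H879.Star
open Pool.Agent.TH387.SH (TF coe_TF card_TF)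

/-- Nagata's inequality for the corank -/
theorem nagataM {k e : ℕ} (hk : 9 ≤ k) {C : Multiset ℕ} (hC : Multiset.card C ≤ k)
    (h : 1 ≤ crkM (TF e) C) : (C.sum : ℝ) ≤ √(k : ℝ) * e := by
  obtain ⟨C', hC'⟩ : ∃ C', C' = C + Multiset.replicate (k - Multiset.card C) 0 := ⟨_, rfl⟩
  have hcard : Multiset.card C' = k := by
    rw [hC', Multiset.card_add, Multiset.card_replicate]
    omega
  have hsum : C'.sum = C.sum := by
    rw [hC', Multiset.sum_add, Multiset.sum_replicate, smul_zero, add_zero]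
  have h1 : 1 ≤ crkM (TF e) C' := h.trans (by rw [hC']; exact crkM_zeros _ _)
  by_contra hcon
  push Not at hcon
  have hfc : Fintype.card (Fin C'.toList.length) = k := by
    rw [Fintype.card_fin, Multiset.length_toList, hcard]
  have hs : ∑ p, vec C' p = C.sum := by
    rw [sum_vec C' (fun x => x), Multiset.map_id', hsum]
  have hE := Pool.Agent.TH868.NG.Emp_plane (ι := Fin C'.toList.length) (w := vec C') (d := e)
    (by omega) (by
      rw [hfc]
      refine hcon.trans_le (le_of_eq ?_)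
      rw [← hs]
      push_cast
      rfl)
  have h2 : crkM (TF e) C' = 0 := crk_zero_of_Emp (by rw [coe_TF]; exact hE)
  omega

/-- Nagata's inequality for some of the points -/
theorem nagata_sub {n k e : ℕ} (hk : 9 ≤ k) {c : Fin n → ℕ} {S : Finset (Fin n)}
    (hS : S.card ≤ k) (h : 1 ≤ crk (TF e) c) : ((∑ i ∈ S, c i : ℕ) : ℝ) ≤ √(k : ℝ) * e := by
  classical
  have h1 : crk (TF e) c = crkM (TF e) (S.val.map c + (Sᶜ).val.map c) := by
    symm
    refine crkM_eq fun t => ?_
    rw [Multiset.map_add, Multiset.sum_add, Multiset.map_map, Multiset.map_map,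
      ← sum_add_sum_compl S]
    rfl
  have h2 := crkM_more (TF_pos (d := e)) (S.val.map c) ((Sᶜ).val.map c)
  have h3 := nagataM (k := k) (e := e) hk (C := S.val.map c)
    (by rw [Multiset.card_map]; exact hS) (by omega)
  exact h3

/-- the factor of a layer of `N` points -/
noncomputable def rho (N : ℕ) : ℝ := max (min (N : ℝ) 3) √(N : ℝ)

theorem rho_nonneg (N : ℕ) : 0 ≤ rho N := le_max_of_le_right (Real.sqrt_nonneg _)

theorem sqrt_le_rho (N : ℕ) : √(N : ℝ) ≤ rho N := le_max_right _ _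

/-- a multiplicity is at most the degree -/
theorem le_deg {n e : ℕ} {c : Fin n → ℕ} (h : 1 ≤ crk (TF e) c) (i : Fin n) : c i ≤ e := by
  classical
  by_contra hcon
  have h1 : crk (TF e) c = crkM (TF e) ({c i} + ((univ : Finset (Fin n)).erase i).val.map c) := by
    symm
    refine crkM_eq fun t => ?_
    rw [Multiset.map_add, Multiset.sum_add, Multiset.map_map, Multiset.map_singleton,
      Multiset.sum_singleton, ← add_sum_erase univ _ (mem_univ i)]
    rfl
  have h2 := crkM_more (TF_pos (d := e)) {c i} (((univ : Finset (Fin n)).erase i).val.map c)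
  have h3 := crkM_anti1 (TF_pos (d := e)) (show e + 1 ≤ c i by omega) 0
  rw [← Multiset.singleton_add, ← Multiset.singleton_add, add_zero, add_zero, crkM_single] at h3
  omega

theorem rho_curve {n e : ℕ} {c : Fin n → ℕ} (S : Finset (Fin n)) (h : 1 ≤ crk (TF e) c) :
    ((∑ i ∈ S, c i : ℕ) : ℝ) ≤ rho S.card * e := by
  have he : (0 : ℝ) ≤ e := Nat.cast_nonneg e
  by_cases h9 : 9 ≤ S.card
  · exact (nagata_sub h9 le_rfl h).trans (mul_le_mul_of_nonneg_right (sqrt_le_rho _) he)
  · have h1 : ((∑ i ∈ S, c i : ℕ) : ℝ) ≤ S.card * e := by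
      have h2 : ∑ i ∈ S, c i ≤ ∑ _i ∈ S, e := sum_le_sum fun i _ => le_deg h i
      rw [sum_const, smul_eq_mul] at h2
      exact_mod_cast h2
    have h3 := nagata_sub (k := 9) le_rfl (show S.card ≤ 9 by omega) h
    have e9 : √((9 : ℕ) : ℝ) = 3 := by
      rw [show ((9 : ℕ) : ℝ) = 3 ^ 2 by norm_num]
      exact Real.sqrt_sq (by norm_num)
    rw [e9] at h3
    have h4 : ((∑ i ∈ S, c i : ℕ) : ℝ) ≤ min (S.card : ℝ) 3 * e := by
      rcases le_total (S.card : ℝ) 3 with h5 | h5
      · rw [min_eq_left h5]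
        exact h1
      · rw [min_eq_right h5]
        exact h3
    exact h4.trans (mul_le_mul_of_nonneg_right (le_max_left _ _) he)

/-- the weight of the multiplicities `v` -/
noncomputable def wt {n : ℕ} (v : Fin n → ℕ) : ℝ :=
  ∑ t ∈ range (univ.sup v), rho (univ.filter fun i => t < v i).card

theorem layer {n : ℕ} (v c : Fin n → ℕ) :
    ∑ i, v i * c i = ∑ t ∈ range (univ.sup v), ∑ i ∈ univ.filter (fun i => t < v i), c i := by
  have h1 : ∀ i, v i * c i = ∑ t ∈ range (univ.sup v), if t < v i then c i else 0 := by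
    intro i
    rw [← sum_filter, sum_const, smul_eq_mul]
    congr 1
    have h2 : (range (univ.sup v)).filter (fun t => t < v i) = range (v i) := by
      ext t
      rw [mem_filter, mem_range, mem_range]
      have h3 : v i ≤ univ.sup v := le_sup (f := v) (mem_univ i)
      omega
    rw [h2, card_range]
  rw [sum_congr rfl fun i _ => h1 i, sum_comm]
  refine sum_congr rfl fun t _ => ?_
  rw [sum_filter]

theorem wt_nonneg {n : ℕ} (v : Fin n → ℕ) : 0 ≤ wt v := sum_nonneg fun _ _ => rho_nonneg _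

theorem wt_curve {n e : ℕ} {v c : Fin n → ℕ} (h : 1 ≤ crk (TF e) c) :
    ((∑ i, v i * c i : ℕ) : ℝ) ≤ wt v * e := by
  rw [layer, wt, sum_mul]
  push_cast
  refine sum_le_sum fun t _ => ?_
  have h1 := rho_curve (univ.filter fun i => t < v i) h
  push_cast at h1
  exact h1

theorem wt_sum {n : ℕ} {v : Fin n → ℕ} {κ : ℕ}
    (h : (univ.filter fun i => 0 < v i).card ≤ κ) :
    ((∑ i, v i : ℕ) : ℝ) ≤ √(κ : ℝ) * wt v := by
  have h1 := layer v (fun _ => 1)
  simp only [mul_one, sum_const, smul_eq_mul] at h1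
  rw [h1, wt, mul_sum]
  push_cast
  refine sum_le_sum fun t _ => ?_
  obtain ⟨a, ha⟩ : ∃ a, a = (univ.filter fun i => t < v i).card := ⟨_, rfl⟩
  rw [← ha]
  have h2 : a ≤ κ := by
    rw [ha]
    refine le_trans (card_le_card ?_) h
    intro i hi
    rw [mem_filter] at hi ⊢
    exact ⟨hi.1, by omega⟩
  calc (a : ℝ) = √(a : ℝ) * √(a : ℝ) := (Real.mul_self_sqrt (Nat.cast_nonneg a)).symm
    _ ≤ √(κ : ℝ) * rho a := mul_le_mul (Real.sqrt_le_sqrt (by exact_mod_cast h2))
        (sqrt_le_rho a) (Real.sqrt_nonneg _) (Real.sqrt_nonneg _)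

theorem wt_sq {n : ℕ} (v : Fin n → ℕ) : ((∑ i, v i ^ 2 : ℕ) : ℝ) ≤ wt v ^ 2 := by
  classical
  have h1 : ∑ i, v i ^ 2 = ∑ s ∈ range (univ.sup v), ∑ t ∈ range (univ.sup v),
      (univ.filter fun i => s < v i ∧ t < v i).card := by
    have e1 : ∑ i, v i ^ 2 = ∑ i, v i * v i := sum_congr rfl fun i _ => sq _
    rw [e1, layer]
    refine sum_congr rfl fun s _ => ?_
    have h2 := layer v (fun i => if s < v i then 1 else 0)
    rw [sum_filter]
    have e2 : ∑ i, (if s < v i then v i else 0) = ∑ i, v i * (if s < v i then 1 else 0) :=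
      sum_congr rfl fun i _ => by
        by_cases h : s < v i
        · rw [if_pos h, if_pos h, mul_one]
        · rw [if_neg h, if_neg h, mul_zero]
    rw [e2, h2]
    refine sum_congr rfl fun t _ => ?_
    rw [card_eq_sum_ones, sum_filter, sum_filter]
    refine sum_congr rfl fun i _ => ?_
    by_cases ht : t < v i <;> by_cases hs : s < v i <;> simp [ht, hs]
  rw [h1, wt, sq, sum_mul_sum]
  push_cast
  refine sum_le_sum fun s _ => sum_le_sum fun t _ => ?_
  obtain ⟨a, ha⟩ : ∃ a, a = (univ.filter fun i => s < v i).card := ⟨_, rfl⟩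
  obtain ⟨b, hb⟩ : ∃ b, b = (univ.filter fun i => t < v i).card := ⟨_, rfl⟩
  obtain ⟨c, hc⟩ : ∃ c, c = (univ.filter fun i => s < v i ∧ t < v i).card := ⟨_, rfl⟩
  rw [← ha, ← hb, ← hc]
  have h2 : c ≤ a := by
    rw [hc, ha]
    refine card_le_card fun i hi => ?_
    rw [mem_filter] at hi ⊢
    exact ⟨hi.1, hi.2.1⟩
  have h3 : c ≤ b := by
    rw [hc, hb]
    refine card_le_card fun i hi => ?_
    rw [mem_filter] at hi ⊢
    exact ⟨hi.1, hi.2.2⟩
  calc (c : ℝ) = √(c : ℝ) * √(c : ℝ) := (Real.mul_self_sqrt (Nat.cast_nonneg c)).symm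
    _ ≤ rho a * rho b := mul_le_mul
        (le_trans (Real.sqrt_le_sqrt (by exact_mod_cast h2)) (sqrt_le_rho a))
        (le_trans (Real.sqrt_le_sqrt (by exact_mod_cast h3)) (sqrt_le_rho b))
        (Real.sqrt_nonneg _) (rho_nonneg _)

theorem rho_le {N κ : ℕ} (hκ : 9 ≤ κ) (h : N ≤ κ) : rho N ≤ √(κ : ℝ) := by
  have h9 : (9 : ℝ) ≤ κ := by exact_mod_cast hκ
  refine max_le ((min_le_right _ _).trans ?_) (Real.sqrt_le_sqrt (by exact_mod_cast h))
  apply Real.le_sqrt_of_sq_le
  linarith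

theorem wt_le {n m κ : ℕ} {v : Fin n → ℕ} (hv : ∀ i, v i ≤ m) (hκ : 9 ≤ κ)
    (h : (univ.filter fun i => 0 < v i).card ≤ κ) : wt v ≤ √(κ : ℝ) * m := by
  have h1 : univ.sup v ≤ m := Finset.sup_le fun i _ => hv i
  calc wt v ≤ ∑ _t ∈ range (univ.sup v), √(κ : ℝ) := by
        refine sum_le_sum fun t _ => rho_le hκ ?_
        refine le_trans (card_le_card ?_) h
        intro i hi
        rw [mem_filter] at hi ⊢
        exact ⟨hi.1, by omega⟩
    _ = (univ.sup v : ℕ) * √(κ : ℝ) := by rw [sum_const, card_range, nsmul_eq_mul]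
    _ ≤ √(κ : ℝ) * m := by
        rw [mul_comm]
        exact mul_le_mul_of_nonneg_left (by exact_mod_cast h1) (Real.sqrt_nonneg _)

/-- positivity by Nagata's inequality -/
theorem posv_wt {n d T : ℕ} {v : Fin n → ℕ} (h : wt v + T ≤ d) : Posv T d v := by
  refine ⟨fun e c hc => ?_, fun e c hc => ?_⟩
  · have h1 := wt_curve (v := v) hc
    have h2 : wt v * e ≤ d * e := mul_le_mul_of_nonneg_right (by
      have : (0 : ℝ) ≤ T := Nat.cast_nonneg T
      linarith) (Nat.cast_nonneg e)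
    exact_mod_cast h1.trans h2
  · have he : 1 ≤ e := by
      by_contra hcon
      have h0 : e = 0 := by omega
      subst h0
      have h1 := crk_le_card (TF 0) c
      rw [card_TF] at h1
      norm_num at h1
      omega
    have h1 := wt_curve (v := v) (show 1 ≤ crk (TF e) c by omega)
    have he' : (1 : ℝ) ≤ e := by exact_mod_cast he
    have h2 : (wt v + T) * e ≤ d * e := mul_le_mul_of_nonneg_right h (Nat.cast_nonneg e)
    have h3 : (T : ℝ) * 1 ≤ T * e := mul_le_mul_of_nonneg_left he' (Nat.cast_nonneg T)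
    have h4 : (((∑ i, v i * c i : ℕ) : ℝ)) + T ≤ d * e := by
      have e1 : (wt v + T) * e = wt v * e + T * e := by ring
      rw [e1] at h2
      linarith
    exact_mod_cast h4

/-- independence of the core -/
theorem core_ind {n d m κ : ℕ} {v : Fin n → ℕ} (hv : ∀ i, v i ≤ m) (hκ : 9 ≤ κ)
    (h : (univ.filter fun i => 0 < v i).card ≤ κ) (hd : √(κ : ℝ) * (m + 1) < d + 3) :
    Ex (TF d) v := by
  have hκ' : (9 : ℝ) ≤ κ := by exact_mod_cast hκ
  have hr : (3 : ℝ) ≤ √(κ : ℝ) := by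
    apply Real.le_sqrt_of_sq_le
    linarith
  have hr0 : (0 : ℝ) < √(κ : ℝ) := by linarith
  have hsq : √(κ : ℝ) ^ 2 = κ := Real.sq_sqrt (Nat.cast_nonneg κ)
  refine Ex_of_Sur ?_
  rw [coe_TF]
  refine Pool.Agent.TH648.SH.Sur_plane (r := √(κ : ℝ)) hr ?_
  rintro j ⟨i0, hi0⟩
  have hjm : j < m := lt_of_lt_of_le hi0 (hv i0)
  have h1 : ∑ i, (v i - j) ≤ κ * (m - j) := by
    calc ∑ i, (v i - j) = ∑ i ∈ univ.filter (fun i => 0 < v i), (v i - j) := by
          symm
          refine sum_subset (filter_subset _ _) fun i _ hi => ?_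
          rw [mem_filter, not_and] at hi
          have := hi (mem_univ i)
          omega
      _ ≤ ∑ _i ∈ univ.filter (fun i => 0 < v i), (m - j) :=
          sum_le_sum fun i _ => Nat.sub_le_sub_right (hv i) j
      _ = (univ.filter fun i => 0 < v i).card * (m - j) := by rw [sum_const, smul_eq_mul]
      _ ≤ κ * (m - j) := Nat.mul_le_mul_right _ h
  have h2 : ((∑ i, (v i - j) : ℕ) : ℝ) ≤ κ * ((m : ℝ) - j) := by
    have h3 : ((∑ i, (v i - j) : ℕ) : ℝ) ≤ ((κ * (m - j) : ℕ) : ℝ) := by exact_mod_cast h1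
    rw [Nat.cast_mul, Nat.cast_sub hjm.le] at h3
    exact h3
  rw [hsq]
  have h3 : √(κ : ℝ) * (√(κ : ℝ) * (m + 1)) < √(κ : ℝ) * (d + 3) :=
    mul_lt_mul_of_pos_left hd hr0
  have e1 : √(κ : ℝ) * (√(κ : ℝ) * ((m : ℝ) + 1)) = κ * (m + 1) := by
    rw [← mul_assoc, ← sq, hsq]
  rw [e1] at h3
  calc ((∑ i, (v i - j) : ℕ) : ℝ) + κ * (j + 1) ≤ κ * ((m : ℝ) - j) + κ * (j + 1) := by linarith
    _ = κ * (m + 1) := by ring
    _ < _ := h3

/-- **small points on a positive core**, in terms of coranks -/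
theorem small_crk {n d μ T : ℕ} {v w : Fin n → ℕ} (hvw : ∀ i, v i = 0 ∨ w i = 0)
    (hw : ∀ i, w i ≤ μ) (hT : 8796093022208 * (μ + 1) ^ 11 ≤ T) (hv : Posv T d v)
    (hK : 16384 * (μ + 1) ^ 3 * ∑ i, v i + ∑ i, v i ^ 2 ≤
      16384 * (μ + 1) ^ 3 * (3 * d) + d ^ 2) :
    crk (TF d) (fun i => v i + w i) = crk (TF d) v - ∑ i, (w i + 1).choose 2 := by
  classical
  obtain ⟨M, hM⟩ : ∃ M : Multiset ℕ, M = (univ : Finset (Fin n)).val.map v := ⟨_, rfl⟩
  obtain ⟨W0, hW0⟩ : ∃ W0 : Multiset ℕ, W0 = (univ : Finset (Fin n)).val.map w := ⟨_, rfl⟩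
  obtain ⟨W, hW⟩ : ∃ W, W = W0.filter fun x => x ≠ 0 := ⟨_, rfl⟩
  have hMv : ∀ t : ℕ → ℕ, ∑ i, t (v i) = (M.map t).sum := by
    intro t
    rw [hM, Multiset.map_map]
    rfl
  have hMw : ∀ t : ℕ → ℕ, ∑ i, t (w i) = (W0.map t).sum := by
    intro t
    rw [hW0, Multiset.map_map]
    rfl
  have hfil : ∀ t : ℕ → ℕ, t 0 = 0 → (W0.map t).sum = (W.map t).sum := by
    intro t ht
    rw [hW]
    clear hW hMw hW0
    induction W0 using Multiset.induction_on with
    | empty => simp
    | cons a W0 ih =>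
      by_cases ha : a = 0
      · subst ha
        rw [Multiset.filter_cons_of_neg _ (by simp), Multiset.map_cons, Multiset.sum_cons, ht,
          zero_add, ih]
      · rw [Multiset.filter_cons_of_pos _ (by simpa using ha), Multiset.map_cons,
          Multiset.sum_cons, Multiset.map_cons, Multiset.sum_cons, ih]
  have hcond : NU.condM W = ∑ i, (w i + 1).choose 2 := by
    unfold Pool.Agent.TH2.NU.condM
    rw [← hfil _ (by norm_num), ← hMw fun x => (x + 1).choose 2]
  have hWμ : ∀ x ∈ W, 1 ≤ x ∧ x ≤ μ := by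
    intro x hx
    rw [hW, Multiset.mem_filter, hW0, Multiset.mem_map] at hx
    obtain ⟨⟨i, -, rfl⟩, h2⟩ := hx
    exact ⟨by omega, hw i⟩
  have hpos := TF_pos (d := d)
  have key := exact_small hMv hT hv hK hWμ
  have h1 : crkM (TF d) M = crk (TF d) v := crkM_eq hMv
  -- the sum with the zeros
  have h2 : crkM (TF d) (M + W0) = crk (TF d) (fun i => v i + w i) := by
    obtain ⟨z, hz⟩ : ∃ z, z = Multiset.replicate n 0 := ⟨_, rfl⟩
    have e1 : crkM (TF d) (M + W0) = crk (TF d) (Sum.elim v w) := by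
      refine crkM_eq fun t => ?_
      rw [Fintype.sum_sum_type, Multiset.map_add, Multiset.sum_add, ← hMv, ← hMw]
      rfl
    have e2 : crkM (TF d) ((univ : Finset (Fin n)).val.map (fun i => v i + w i) +
        Multiset.replicate n 0) = crk (TF d) (Sum.elim v w) := by
      refine crkM_eq fun t => ?_
      rw [Fintype.sum_sum_type, Multiset.map_add, Multiset.sum_add, Multiset.map_replicate,
        Multiset.sum_replicate, Multiset.map_map]
      simp only [Sum.elim_inl, Sum.elim_inr, smul_eq_mul]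
      have e3 : ((univ : Finset (Fin n)).val.map (t ∘ fun i => v i + w i)).sum =
        ∑ i, t (v i + w i) := rfl
      have e4 : n * t 0 = ∑ _i : Fin n, t 0 := by simp
      rw [e3, e4, ← sum_add_distrib, ← sum_add_distrib]
      refine sum_congr rfl fun i _ => ?_
      rcases hvw i with h | h
      · rw [h, zero_add]
        ring
      · rw [h, add_zero]
    have e5 : crkM (TF d) ((univ : Finset (Fin n)).val.map (fun i => v i + w i)) =
        crk (TF d) (fun i => v i + w i) := by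
      refine crkM_eq fun t => ?_
      rw [Multiset.map_map]
      rfl
    rw [e1, ← e2, ← e5]
    refine le_antisymm ?_ (crkM_zeros _ _)
    exact crkM_more hpos _ _
  have h3 : crkM (TF d) (M + W0) ≤ crkM (TF d) (M + W) := by
    rw [hW]
    exact crkM_filter hpos M W0
  have h4 : crkM (TF d) M ≤ crkM (TF d) (M + W0) + ∑ i, (w i + 1).choose 2 := by
    have h5 := le_crkM_add hpos M W0
    have e6 : NU.condM W0 = ∑ i, (w i + 1).choose 2 := by
      unfold Pool.Agent.TH2.NU.condM
      rw [← hMw fun x => (x + 1).choose 2]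
    rw [e6] at h5
    exact h5
  rw [hcond, h1] at key
  rw [h1] at h4
  rw [h2] at h3 h4
  omega

end Pool.Agent.H879.Pos
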