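import Pool.Agent.H879.Pos.Xu
import Pool.Graph.R_seed8.TH167.TT.Strict

/-! Crude emptiness of a nef class with many small points. -/

set_option autoImplicit false

namespace Pool.Agent.H879.Pos

open MvPolynomial Pool.Agent.W609 Pool.Agent.W609.CR Pool.Agent.TH167.SH Pool.Agent.TH167.TT
  Pool.Agent.H248R5 Pool.Agent.H248R6

/-- additive inequalities pass from irreducible curves to all curves -/
theorem induct {K : Type} [Field K] {s : ℕ} {P : Fin s → Fin 2 → K}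
    (φ : ℕ → (Fin s → ℕ) → Prop) (h0 : φ 0 fun _ => 0)
    (hadd : ∀ e e' u u', φ e u → φ e' u' → φ (e + e') fun j => u j + u' j)
    (hirr : ∀ (G : MvPolynomial (Fin 3) K) (e : ℕ) (u : Fin s → ℕ), Irreducible G →
      G.IsHomogeneous e → (∀ j, Ord (aff (P j)) (u j) G) → φ e u)
    {f : MvPolynomial (Fin 3) K} (hf0 : f ≠ 0) :
    ∀ (e : ℕ) (u : Fin s → ℕ), f.IsHomogeneous e → (∀ j, Ord (aff (P j)) (u j) f) → φ e u := by
  classical
  induction f using WfDvdMonoid.induction_on_irreducible with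
  | zero => exact absurd rfl hf0
  | unit x hx =>
    intro e u he hu
    have h1 : e = 0 := by
      rw [MvPolynomial.isUnit_iff_eq_C_of_isReduced] at hx
      obtain ⟨c, -, hc⟩ := hx
      have h2 : (C c : MvPolynomial (Fin 3) K).IsHomogeneous 0 := isHomogeneous_C _ _
      rw [← hc] at h2
      exact he.inj_right h2 hf0
    subst h1
    have h2 : u = fun _ => 0 := funext fun j => Nat.le_zero.1 (van_le hf0 he (hu j).1)
    rw [h2]
    exact h0
  | mul a i ha0 hi ih =>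
    intro e u he hu
    have hai : i * a ≠ 0 := hf0
    have hie := Pool.Agent.Chud.homog_of_dvd he hai (Dvd.intro _ rfl)
    have hae := Pool.Agent.Chud.homog_of_dvd he hai (Dvd.intro_left _ rfl)
    choose v hv using fun j => exists_ord (p := P j) hi.ne_zero hie
    choose v' hv' using fun j => exists_ord (p := P j) ha0 hae
    have h1 := ih ha0 _ v' hae hv'
    have h2 := hirr i _ v hi hie hv
    have h3 : e = i.totalDegree + a.totalDegree := by
      have := (hie.mul hae).inj_right he hai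
      omega
    have h4 : u = fun j => v j + v' j := by
      funext j
      exact ord_unique (hu j) (ord_mul (hv j) (hv' j))
    rw [h3, h4]
    exact hadd _ _ _ _ h2 h1

/-- the index theorem for diagonal classes -/
theorem hodge {s : ℕ} {v c : Fin s → ℤ} {d e X : ℤ} (hd : 0 < d) (hL : 0 ≤ d ^ 2 - ∑ i, v i ^ 2)
    (hX : X = d * e - ∑ i, v i * c i) :
    (d ^ 2 - ∑ i, v i ^ 2) * (e ^ 2 - ∑ i, c i ^ 2) ≤ X ^ 2 := by
  obtain ⟨L, hLd⟩ : ∃ L, L = d ^ 2 - ∑ i, v i ^ 2 := ⟨_, rfl⟩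
  obtain ⟨γ, hγ⟩ : ∃ γ, γ = e ^ 2 - ∑ i, c i ^ 2 := ⟨_, rfl⟩
  rw [← hLd] at hL ⊢
  rw [← hγ]
  have h1 : L * e ^ 2 - 2 * (X * e * d) + γ * d ^ 2 = -∑ i, (v i * e - c i * d) ^ 2 := by
    have h2 : ∑ i, (v i * e - c i * d) ^ 2 = e ^ 2 * ∑ i, v i ^ 2 + d ^ 2 * ∑ i, c i ^ 2 -
        2 * (e * d) * ∑ i, v i * c i := by
      rw [Finset.mul_sum, Finset.mul_sum, Finset.mul_sum, ← Finset.sum_add_distrib,
        ← Finset.sum_sub_distrib]
      exact Finset.sum_congr rfl fun i _ => by ring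
    rw [h2, hLd, hγ, hX]
    ring
  have h2 : 0 ≤ ∑ i, (v i * e - c i * d) ^ 2 := Finset.sum_nonneg fun i _ => sq_nonneg _
  have h3 : L * (L * e ^ 2 - 2 * (X * e * d) + γ * d ^ 2) ≤ 0 := by
    refine mul_nonpos_of_nonneg_of_nonpos hL ?_
    linarith
  have h4 : 0 ≤ (L * e - X * d) ^ 2 := sq_nonneg _
  have h5 : 0 ≤ d ^ 2 * (X ^ 2 - L * γ) := by
    have e1 : d ^ 2 * (X ^ 2 - L * γ) = (L * e - X * d) ^ 2 -
        L * (L * e ^ 2 - 2 * (X * e * d) + γ * d ^ 2) := by ring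
    rw [e1]
    linarith
  have h6 : 0 ≤ X ^ 2 - L * γ := nonneg_of_mul_nonneg_right h5 (by positivity)
  linarith

/-- **the inequality for irreducible curves** -/
theorem irr_ineq {K : Type} [Field K] [CharZero K] {s d q B T : ℕ} {P : Fin s → Fin 2 → K}
    (hP : AlgebraicIndependent ℚ (fun ij : Fin s × Fin 2 => P ij.1 ij.2))
    {v w : Fin s → ℕ} (hvw : ∀ i, v i = 0 ∨ w i = 0) (hwB : ∀ i, w i ≤ B)
    (hT : B * (q + 1) ^ 2 ≤ T) (hL : ∑ i, v i ^ 2 < d ^ 2)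
    {G : MvPolynomial (Fin 3) K} {e : ℕ} {c : Fin s → ℕ} (hG : Irreducible G)
    (hGe : G.IsHomogeneous e) (hc : ∀ j, Ord (aff (P j)) (c j) G)
    (hnef : ∑ i, v i * c i ≤ d * e)
    (hmov : (∃ j, w j ≠ 0 ∧ 1 ≤ c j) → ∑ i, v i * c i + T ≤ d * e)
    {W2 : ℤ} (hW2 : W2 = ∑ i, (w i : ℤ) ^ 2) {L : ℤ} (hLd : L = (d : ℤ) ^ 2 - ∑ i, (v i : ℤ) ^ 2)
    (hWL : L ≤ W2) {X Y : ℤ} (hX : X = d * e - ∑ i, (v i : ℤ) * c i)
    (hY : Y = ∑ i, (w i : ℤ) * c i) :
    0 ≤ X ∧ 0 ≤ Y ∧ q * L * Y ^ 2 ≤ (q + 1) * W2 * X ^ 2 := by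
  classical
  have hXn : X = ((d * e : ℕ) : ℤ) - ((∑ i, v i * c i : ℕ) : ℤ) := by
    rw [hX]
    push_cast
    rfl
  have hX0 : 0 ≤ X := by
    rw [hXn]
    have : ((∑ i, v i * c i : ℕ) : ℤ) ≤ ((d * e : ℕ) : ℤ) := by exact_mod_cast hnef
    linarith
  have hY0 : 0 ≤ Y := by
    rw [hY]
    exact Finset.sum_nonneg fun i _ => by positivity
  have hL0 : 0 < L := by
    rw [hLd]
    have h1 : ((∑ i, v i ^ 2 : ℕ) : ℤ) < ((d ^ 2 : ℕ) : ℤ) := by exact_mod_cast hL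
    push_cast at h1
    linarith
  have hW0 : 0 < W2 := lt_of_lt_of_le hL0 hWL
  refine ⟨hX0, hY0, ?_⟩
  -- the small points on the curve
  obtain ⟨J, hJ⟩ : ∃ J : Finset (Fin s), J = Finset.univ.filter fun j => w j ≠ 0 ∧ c j ≠ 0 :=
    ⟨_, rfl⟩
  have hYJ : Y = ∑ i ∈ J, (w i : ℤ) * c i := by
    rw [hY]
    symm
    refine Finset.sum_subset (Finset.subset_univ _) fun i _ hi => ?_
    rw [hJ, Finset.mem_filter] at hi
    push Not at hi
    by_cases hw : w i = 0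
    · rw [hw]
      simp
    · rw [hi (Finset.mem_univ i) hw]
      simp
  rcases J.eq_empty_or_nonempty with hJ0 | hJ0
  · rw [hYJ, hJ0, Finset.sum_empty]
    have : 0 ≤ ((q : ℤ) + 1) * W2 * X ^ 2 := by positivity
    simpa using this
  obtain ⟨j, hj, hjmin⟩ := J.exists_min_image c hJ0
  have hj' := hj
  rw [hJ, Finset.mem_filter] at hj'
  have hcj : 1 ≤ c j := Nat.one_le_iff_ne_zero.2 hj'.2.2
  have hself := self_int hP hG hGe hc hcj
  have hTX : (T : ℤ) ≤ X := by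
    have h1 := hmov ⟨j, hj'.2.1, hcj⟩
    rw [hXn]
    have : ((∑ i, v i * c i : ℕ) : ℤ) + T ≤ ((d * e : ℕ) : ℤ) := by exact_mod_cast h1
    linarith
  -- S
  obtain ⟨S, hS⟩ : ∃ S : ℤ, S = ∑ i ∈ J, (c i : ℤ) ^ 2 := ⟨_, rfl⟩
  have hYS : Y ^ 2 ≤ W2 * S := by
    rw [hYJ, hS]
    refine (Finset.sum_mul_sq_le_sq_mul_sq J _ _).trans ?_
    refine mul_le_mul_of_nonneg_right ?_ (Finset.sum_nonneg fun i _ => sq_nonneg _)
    rw [hW2]
    exact Finset.sum_le_sum_of_subset_of_nonneg (Finset.subset_univ _) fun i _ _ => sq_nonneg _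
  have hd0 : (0 : ℤ) < d := by
    have : 0 < d := by
      by_contra h
      have : d = 0 := by omega
      rw [this] at hL
      simp at hL
    exact_mod_cast this
  -- the index theorem for the core
  have hcore : L * (S - c j) ≤ X ^ 2 := by
    have h1 := hodge (s := s) (v := fun i => (v i : ℤ))
      (c := fun i => if i ∈ J then 0 else (c i : ℤ)) (d := d) (e := e) (X := X) hd0
      (by rw [← hLd]; exact hL0.le) (by
        rw [hX]
        congr 1
        refine Finset.sum_congr rfl fun i _ => ?_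
        by_cases hi : i ∈ J
        · rw [if_pos hi]
          rw [hJ, Finset.mem_filter] at hi
          rw [(hvw i).resolve_right hi.2.1]
          simp
        · rw [if_neg hi])
    rw [← hLd] at h1
    refine le_trans (mul_le_mul_of_nonneg_left ?_ hL0.le) h1
    have h2 : ∑ i, (if i ∈ J then (0 : ℤ) else (c i : ℤ)) ^ 2 = ∑ i, (c i : ℤ) ^ 2 - S := by
      rw [hS, ← Finset.sum_filter_add_sum_filter_not Finset.univ (fun i => i ∈ J)
        (fun i => (c i : ℤ) ^ 2), ← Finset.sum_filter_add_sum_filter_not Finset.univ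
        (fun i => i ∈ J) (fun i => (if i ∈ J then (0 : ℤ) else (c i : ℤ)) ^ 2)]
      have e1 : ∑ i ∈ Finset.univ.filter (fun i => i ∈ J),
          (if i ∈ J then (0 : ℤ) else (c i : ℤ)) ^ 2 = 0 :=
        Finset.sum_eq_zero fun i hi => by
          rw [if_pos (Finset.mem_filter.1 hi).2]
          norm_num
      have e2 : ∑ i ∈ Finset.univ.filter (fun i => ¬ i ∈ J),
          (if i ∈ J then (0 : ℤ) else (c i : ℤ)) ^ 2 =
          ∑ i ∈ Finset.univ.filter (fun i => ¬ i ∈ J), (c i : ℤ) ^ 2 :=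
        Finset.sum_congr rfl fun i hi => by rw [if_neg (Finset.mem_filter.1 hi).2]
      have e3 : Finset.univ.filter (fun i => i ∈ J) = J := by
        ext i
        simp
      rw [e1, e2, e3]
      ring
    rw [h2]
    have h3 : ((∑ i, c i ^ 2 : ℕ) : ℤ) ≤ ((e ^ 2 + c j : ℕ) : ℤ) := by exact_mod_cast hself
    push_cast at h3
    linarith
  have hcS : (c j : ℤ) ^ 2 ≤ S := by
    rw [hS]
    exact Finset.single_le_sum (f := fun i => (c i : ℤ) ^ 2) (fun i _ => sq_nonneg _) hj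
  have hS0 : 0 ≤ S := le_trans (sq_nonneg _) hcS
  rcases le_or_gt (((q : ℤ) + 1) * c j) S with hbig | hsmall
  · -- many points
    have h1 : (q : ℤ) * S ≤ (q + 1) * (S - c j) := by linarith
    have hq0 : (0 : ℤ) ≤ q := by positivity
    calc q * L * Y ^ 2 ≤ q * L * (W2 * S) :=
          mul_le_mul_of_nonneg_left hYS (mul_nonneg hq0 hL0.le)
      _ = W2 * L * (q * S) := by ring
      _ ≤ W2 * L * ((q + 1) * (S - c j)) :=
          mul_le_mul_of_nonneg_left h1 (mul_nonneg hW0.le hL0.le)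
      _ = (q + 1) * W2 * (L * (S - c j)) := by ring
      _ ≤ (q + 1) * W2 * X ^ 2 := mul_le_mul_of_nonneg_left hcore (by positivity)
  · -- few points
    have hcq : (c j : ℤ) ≤ q := by
      by_contra hcon
      push Not at hcon
      have h1 : ((q : ℤ) + 1) * c j ≤ c j * c j :=
        mul_le_mul_of_nonneg_right (by linarith) (by positivity)
      have h2 : (c j : ℤ) * c j = (c j : ℤ) ^ 2 := by ring
      linarith
    have hSq : S ≤ ((q : ℤ) + 1) ^ 2 := by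
      have h1 : ((q : ℤ) + 1) * c j ≤ (q + 1) * (q + 1) :=
        mul_le_mul_of_nonneg_left (by linarith) (by positivity)
      have h2 : ((q : ℤ) + 1) * (q + 1) = (q + 1) ^ 2 := by ring
      linarith
    have hYX : Y ≤ X := by
      have h1 : Y ≤ B * S := by
        rw [hYJ, hS, Finset.mul_sum]
        refine Finset.sum_le_sum fun i hi => ?_
        have h2 : (w i : ℤ) ≤ B := by exact_mod_cast hwB i
        have h3 : (c i : ℤ) ≤ (c i : ℤ) ^ 2 := by
          have : c i ≤ c i ^ 2 := Nat.le_self_pow (by norm_num) _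
          exact_mod_cast this
        exact mul_le_mul h2 h3 (by positivity) (by positivity)
      have h2 : (B : ℤ) * S ≤ B * (q + 1) ^ 2 := mul_le_mul_of_nonneg_left hSq (by positivity)
      have h3 : (B : ℤ) * (q + 1) ^ 2 ≤ T := by exact_mod_cast hT
      linarith
    have h1 : Y ^ 2 ≤ X ^ 2 := pow_le_pow_left₀ hY0 hYX 2
    have h2 : (q : ℤ) * L ≤ (q + 1) * W2 := by
      have h3 : (q : ℤ) * L ≤ q * W2 := mul_le_mul_of_nonneg_left hWL (by positivity)
      have : ((q : ℤ) + 1) * W2 = q * W2 + W2 := by ring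
      linarith
    calc q * L * Y ^ 2 ≤ q * L * X ^ 2 :=
          mul_le_mul_of_nonneg_left h1 (mul_nonneg (by positivity) hL0.le)
      _ ≤ (q + 1) * W2 * X ^ 2 := mul_le_mul_of_nonneg_right h2 (sq_nonneg _)

/-- a cone -/
theorem cone_add {a b X X' Y Y' : ℤ} (ha : 0 ≤ a) (hX : 0 ≤ X) (hX' : 0 ≤ X')
    (hY : 0 ≤ Y) (hY' : 0 ≤ Y') (h : a * Y ^ 2 ≤ b * X ^ 2) (h' : a * Y' ^ 2 ≤ b * X' ^ 2)
    (hb : 0 ≤ b) : a * (Y + Y') ^ 2 ≤ b * (X + X') ^ 2 := by
  have h1 : (a * (Y * Y')) ^ 2 ≤ (b * (X * X')) ^ 2 := by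
    calc (a * (Y * Y')) ^ 2 = (a * Y ^ 2) * (a * Y' ^ 2) := by ring
      _ ≤ (b * X ^ 2) * (b * X' ^ 2) :=
          mul_le_mul h h' (by positivity) (by positivity)
      _ = (b * (X * X')) ^ 2 := by ring
  have h2 : a * (Y * Y') ≤ b * (X * X') :=
    (pow_le_pow_iff_left₀ (by positivity) (by positivity) (by norm_num)).1 h1
  nlinarith

/-- **Crude emptiness.** -/
theorem ce {K : Type} [Field K] [CharZero K] {s d q B T : ℕ} {P : Fin s → Fin 2 → K}
    (hP : AlgebraicIndependent ℚ (fun ij : Fin s × Fin 2 => P ij.1 ij.2))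
    {v w : Fin s → ℕ} (hvw : ∀ i, v i = 0 ∨ w i = 0) (hwB : ∀ i, w i ≤ B)
    (hT : B * (q + 1) ^ 2 ≤ T) (hL : ∑ i, v i ^ 2 < d ^ 2)
    (hnef : ∀ (G : MvPolynomial (Fin 3) K) (e : ℕ) (c : Fin s → ℕ), Irreducible G →
      G.IsHomogeneous e → (∀ j, Ord (aff (P j)) (c j) G) → ∑ i, v i * c i ≤ d * e)
    (hmov : ∀ (G : MvPolynomial (Fin 3) K) (e : ℕ) (c : Fin s → ℕ), Irreducible G →
      G.IsHomogeneous e → (∀ j, Ord (aff (P j)) (c j) G) → (∃ j, w j ≠ 0 ∧ 1 ≤ c j) →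
      ∑ i, v i * c i + T ≤ d * e)
    {F : MvPolynomial (Fin 3) K} (hF0 : F ≠ 0) (hF : F ∈ forms (fun i => v i + w i) P d) :
    q * ∑ i, w i ^ 2 + (q + 1) * ∑ i, v i ^ 2 ≤ (q + 1) * d ^ 2 := by
  classical
  obtain ⟨W2, hW2⟩ : ∃ W2 : ℤ, W2 = ∑ i, (w i : ℤ) ^ 2 := ⟨_, rfl⟩
  obtain ⟨L, hLd⟩ : ∃ L : ℤ, L = (d : ℤ) ^ 2 - ∑ i, (v i : ℤ) ^ 2 := ⟨_, rfl⟩
  have hL0 : 0 < L := by
    rw [hLd]
    have h1 : ((∑ i, v i ^ 2 : ℕ) : ℤ) < ((d ^ 2 : ℕ) : ℤ) := by exact_mod_cast hL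
    push_cast at h1
    linarith
  have hgoal : (q : ℤ) * W2 ≤ (q + 1) * L → q * ∑ i, w i ^ 2 + (q + 1) * ∑ i, v i ^ 2 ≤
      (q + 1) * d ^ 2 := by
    intro h
    zify
    rw [hW2, hLd] at h
    linarith
  apply hgoal
  rcases le_or_gt L W2 with hWL | hWL
  swap
  · have h1 : (q : ℤ) * W2 ≤ q * L := mul_le_mul_of_nonneg_left hWL.le (by positivity)
    have : ((q : ℤ) + 1) * L = q * L + L := by ring
    linarith
  have hW0 : 0 < W2 := lt_of_lt_of_le hL0 hWL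
  rw [← mem_forms_VS, mem_VS] at hF
  choose u hu using fun j => exists_ord (p := P j) hF0 hF.1
  have hule : ∀ j, v j + w j ≤ u j := by
    intro j
    by_contra hcon
    push Not at hcon
    exact (hu j).2 (van_mono (by omega) (hF.2 j))
  have key := induct (P := P)
    (fun e u => 0 ≤ (d : ℤ) * e - ∑ i, (v i : ℤ) * u i ∧ 0 ≤ ∑ i, (w i : ℤ) * u i ∧
      q * L * (∑ i, (w i : ℤ) * u i) ^ 2 ≤
        (q + 1) * W2 * ((d : ℤ) * e - ∑ i, (v i : ℤ) * u i) ^ 2)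
    (by simp) (by
      rintro e e' u u' ⟨a1, a2, a3⟩ ⟨b1, b2, b3⟩
      have e1 : (d : ℤ) * ((e + e' : ℕ) : ℤ) - ∑ i, (v i : ℤ) * ((u i + u' i : ℕ) : ℤ) =
          ((d : ℤ) * e - ∑ i, (v i : ℤ) * u i) + ((d : ℤ) * e' - ∑ i, (v i : ℤ) * u' i) := by
        push_cast
        simp only [mul_add, Finset.sum_add_distrib]
        ring
      have e2 : ∑ i, (w i : ℤ) * ((u i + u' i : ℕ) : ℤ) =
          ∑ i, (w i : ℤ) * u i + ∑ i, (w i : ℤ) * u' i := by
        push_cast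
        simp only [mul_add, Finset.sum_add_distrib]
      rw [e1, e2]
      refine ⟨by linarith, by linarith, cone_add ?_ a1 b1 a2 b2 a3 b3 ?_⟩
      · exact mul_nonneg (by positivity) hL0.le
      · positivity)
    (fun G e c hG hGe hc => irr_ineq hP hvw hwB hT hL hG hGe hc (hnef G e c hG hGe hc)
      (hmov G e c hG hGe hc) hW2 hLd hWL rfl rfl) hF0 d u hF.1 hu
  obtain ⟨k1, k2, k3⟩ := key
  have hY : W2 ≤ ∑ i, (w i : ℤ) * u i := by
    rw [hW2]
    refine Finset.sum_le_sum fun i _ => ?_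
    have h1 : (w i : ℤ) ≤ u i := by
      have := hule i
      exact_mod_cast (by omega : w i ≤ u i)
    rw [sq]
    exact mul_le_mul_of_nonneg_left h1 (by positivity)
  have hX : (d : ℤ) * d - ∑ i, (v i : ℤ) * u i ≤ L := by
    rw [hLd]
    have h1 : ∑ i, (v i : ℤ) ^ 2 ≤ ∑ i, (v i : ℤ) * u i := by
      refine Finset.sum_le_sum fun i _ => ?_
      have h2 : (v i : ℤ) ≤ u i := by
        have := hule i
        exact_mod_cast (by omega : v i ≤ u i)
      rw [sq]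
      exact mul_le_mul_of_nonneg_left h2 (by positivity)
    have : (d : ℤ) ^ 2 = d * d := sq _
    linarith
  have h1 : q * L * W2 ^ 2 ≤ (q + 1) * W2 * L ^ 2 := by
    calc q * L * W2 ^ 2 ≤ q * L * (∑ i, (w i : ℤ) * u i) ^ 2 :=
          mul_le_mul_of_nonneg_left (pow_le_pow_left₀ hW0.le hY 2)
            (mul_nonneg (by positivity) hL0.le)
      _ ≤ (q + 1) * W2 * ((d : ℤ) * d - ∑ i, (v i : ℤ) * u i) ^ 2 := k3
      _ ≤ (q + 1) * W2 * L ^ 2 :=
          mul_le_mul_of_nonneg_left (pow_le_pow_left₀ k1 hX 2) (by positivity)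
  have h2 : L * W2 * (q * W2) ≤ L * W2 * ((q + 1) * L) := by linarith
  exact le_of_mul_le_mul_left h2 (mul_pos hL0 hW0)

end Pool.Agent.H879.Pos
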