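import Pool.Agent.H879.Pos.Main

/-! Small points on a positive linear system: exactness. -/

set_option autoImplicit false

namespace Pool.Agent.H879.Pos

open Finset Pool.Agent.TH176.Nag Pool.Agent.TH603.Sur Pool.Agent.TH2 Pool.Agent.TH2.NU
open Pool.Agent.Y205.MD Pool.Agent.Y205.FW Pool.Agent.Y205.AV Pool.Agent.K7.H33.BP
open Pool.Agent.H879.Star
open Pool.Agent.TH387.SH (TF coe_TF card_TF)

/-- simple points -/
theorem crkM_simple {S : Finset (ℤ × ℤ)} (M : Multiset ℕ) :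
    crkM S (M + Multiset.replicate (crkM S M) 1) = 0 := by
  classical
  obtain ⟨T, hT1, hT2, hT3⟩ := crk_spec S (vec M)
  have h4 := Emp_union hT3 (S \ T)
  rw [union_sdiff_of_subset hT1] at h4
  have h5 : (S \ T).card = crkM S M := by
    rw [card_sdiff_of_subset hT1]
    have := card_le_card hT1
    unfold crkM
    omega
  rw [h5] at h4
  have h6 : crkM S (M + Multiset.replicate (crkM S M) 1) =
      crk S (Sum.elim (vec M) (fun _ : Fin (crkM S M) => 1)) := by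
    refine crkM_eq fun f => ?_
    rw [Fintype.sum_sum_type, Multiset.map_add, Multiset.sum_add, Multiset.map_replicate,
      Multiset.sum_replicate, ← sum_vec]
    simp
  rw [h6]
  exact crk_zero_of_Emp h4

theorem numB {y z N q : ℕ} (hy : 1 ≤ y) (hz1 : 1024 * y ^ 3 ≤ z) (hz2 : z ≤ 2048 * y ^ 3)
    (hq : q = 16384 * y ^ 3) (hN : 549755813888 * y ^ 11 ≤ N) :
    y * (8 * (64 * y ^ 2 * ((16 * N / q + 2 * q ^ 2 + 1) + (N / z + 1) +
      z ^ 2 * (64 * y ^ 2) + 3)) + 320 * y ^ 2) ≤ 2 * N := by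
  have hpos : 0 < y := hy
  have y3 : y ^ 3 ≤ y ^ 11 := Nat.pow_le_pow_right hpos (by norm_num)
  have y9 : y ^ 9 ≤ y ^ 11 := Nat.pow_le_pow_right hpos (by norm_num)
  have t1 : 512 * y ^ 3 * (16 * N / q) * 2 ≤ N := by
    have h1 := Nat.div_mul_le_self (16 * N) q
    obtain ⟨a, ha⟩ : ∃ a, a = 16 * N / q := ⟨_, rfl⟩
    rw [← ha] at h1 ⊢
    rw [hq] at h1
    have e : a * (16384 * y ^ 3) = 16 * (512 * y ^ 3 * a * 2) := by ring
    rw [e] at h1
    omega
  have t2 : 512 * y ^ 3 * (N / z) * 2 ≤ N := by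
    have h1 := Nat.div_mul_le_self N z
    have h2 : N / z * (1024 * y ^ 3) ≤ N / z * z := Nat.mul_le_mul_left _ hz1
    have e : 512 * y ^ 3 * (N / z) * 2 = N / z * (1024 * y ^ 3) := by ring
    rw [e]
    exact h2.trans h1
  have t3 : 512 * y ^ 3 * (2 * q ^ 2) = 274877906944 * y ^ 9 := by
    rw [hq]
    ring
  have t4 : 512 * y ^ 3 * (z ^ 2 * (64 * y ^ 2)) ≤ 137438953472 * y ^ 11 := by
    have h1 : z ^ 2 ≤ (2048 * y ^ 3) ^ 2 := Nat.pow_le_pow_left hz2 2
    calc 512 * y ^ 3 * (z ^ 2 * (64 * y ^ 2)) ≤ 512 * y ^ 3 * ((2048 * y ^ 3) ^ 2 * (64 * y ^ 2)) :=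
          Nat.mul_le_mul_left _ (Nat.mul_le_mul_right _ h1)
      _ = 137438953472 * y ^ 11 := by ring
  have e : y * (8 * (64 * y ^ 2 * ((16 * N / q + 2 * q ^ 2 + 1) + (N / z + 1) +
      z ^ 2 * (64 * y ^ 2) + 3)) + 320 * y ^ 2) =
      512 * y ^ 3 * (16 * N / q) + 512 * y ^ 3 * (2 * q ^ 2) + 512 * y ^ 3 * (N / z) +
      512 * y ^ 3 * (z ^ 2 * (64 * y ^ 2)) + 2880 * y ^ 3 := by ring
  rw [e, t3]
  omega

/-- **Small points on a positive linear system.** -/
theorem exact_small {n d μ T : ℕ} {v : Fin n → ℕ} {M : Multiset ℕ}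
    (hM : ∀ t : ℕ → ℕ, ∑ i, t (v i) = (M.map t).sum)
    (hT : 8796093022208 * (μ + 1) ^ 11 ≤ T) (hv : Posv T d v)
    (hK : 16384 * (μ + 1) ^ 3 * ∑ i, v i + ∑ i, v i ^ 2 ≤
      16384 * (μ + 1) ^ 3 * (3 * d) + d ^ 2)
    {W : Multiset ℕ} (hW : ∀ x ∈ W, 1 ≤ x ∧ x ≤ μ) :
    crkM (TF d) (M + W) ≤ crkM (TF d) M - NU.condM W := by
  classical
  have hpos : ∀ u ∈ TF d, 0 ≤ u.1 ∧ 0 ≤ u.2 := TF_pos
  rcases W.empty_or_exists_mem with hW0 | ⟨x0, hx0⟩
  · rw [hW0, add_zero, condM_zero]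
    exact (Nat.sub_zero _).ge
  have hμ : 1 ≤ μ := by
    have := hW x0 hx0
    omega
  obtain ⟨N, hN⟩ : ∃ N, crkM (TF d) M = N := ⟨_, rfl⟩
  rw [hN]
  rcases Nat.lt_or_ge N 2 with hN2 | hN2
  · -- at most one curve
    have h1 : crkM (TF d) (M + W) = 0 := by
      obtain ⟨W', hW'⟩ := Multiset.exists_cons_of_mem hx0
      have h2 := crkM_simple (S := TF d) M
      rw [hN] at h2
      have h3 : crkM (TF d) (M + {1}) = 0 := by
        have h4 : N = 0 ∨ N = 1 := by omega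
        rcases h4 with h4 | h4
        · rw [h4] at hN
          have := crkM_more hpos M {1}
          omega
        · rw [h4] at h2
          simpa using h2
      have h4 : crkM (TF d) (x0 ::ₘ M) ≤ crkM (TF d) (1 ::ₘ M) := crkM_anti1 hpos (hW x0 hx0).1 M
      have e1 : M + {1} = 1 ::ₘ M := by rw [add_comm, Multiset.singleton_add]
      have e2 : M + W = (x0 ::ₘ M) + W' := by
        rw [hW', Multiset.add_cons, Multiset.cons_add]
      rw [e1] at h3
      rw [e2]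
      have h5 := crkM_more hpos (x0 ::ₘ M) W'
      omega
    rw [h1]
    exact Nat.zero_le _
  obtain ⟨y, hy⟩ : ∃ y, y = μ + 1 := ⟨_, rfl⟩
  have hy2 : 2 ≤ y := by omega
  obtain ⟨q, hq⟩ : ∃ q, q = 16384 * y ^ 3 := ⟨_, rfl⟩
  have y3' : 1 ≤ y ^ 3 := Nat.one_le_pow _ _ (by omega)
  have hq1 : 2 ≤ q := by omega
  rw [← hy, ← hq] at hK
  rw [← hy] at hT
  -- the self-intersection
  have hcrkv : crk (TF d) v = N := by
    rw [← hN]
    symm
    exact crkM_eq hM
  have hmov := hv.mov d v (by rw [hcrkv]; exact hN2)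
  obtain ⟨L, hL⟩ : ∃ L, ∑ i, v i ^ 2 + L = d ^ 2 := by
    refine ⟨d ^ 2 - ∑ i, v i ^ 2, Nat.add_sub_cancel' ?_⟩
    have e1 : ∑ i, v i ^ 2 = ∑ i, v i * v i := sum_congr rfl fun i _ => sq _
    rw [e1, sq]
    omega
  have hTL : T ≤ L := by
    have e1 : ∑ i, v i ^ 2 = ∑ i, v i * v i := sum_congr rfl fun i _ => sq _
    rw [e1, sq] at hL
    omega
  -- the dimension
  have hcard := card_le_crkM hpos M
  rw [hN] at hcard
  have h2TF := two_card_TF d
  have h2c : 2 * NU.condM M = ∑ i, v i ^ 2 + ∑ i, v i := by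
    unfold Pool.Agent.TH2.NU.condM
    rw [← hM fun x => (x + 1).choose 2, mul_sum, ← sum_add_distrib]
    refine sum_congr rfl fun i _ => ?_
    rw [Pool.Agent.TH2.NU.two_choose]
    ring
  have hdim : d ^ 2 + 3 * d + 2 ≤ 2 * N + (∑ i, v i ^ 2 + ∑ i, v i) := by
    have e1 : (d + 1) * (d + 2) = d ^ 2 + 3 * d + 2 := by ring
    rw [e1] at h2TF
    omega
  obtain ⟨A, hA⟩ : ∃ A, A = ∑ i, v i := ⟨_, rfl⟩
  obtain ⟨V2, hV2⟩ : ∃ V2, V2 = ∑ i, v i ^ 2 := ⟨_, rfl⟩
  rw [← hA, ← hV2] at hK hdim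
  rw [← hV2] at hL
  have hqL : q * L + 2 * q ≤ 2 * (q * N) + L := by
    have h1 : q * (d ^ 2 + 3 * d + 2) ≤ q * (2 * N + (V2 + A)) := Nat.mul_le_mul_left _ hdim
    have e1 : q * (d ^ 2 + 3 * d + 2) = q * d ^ 2 + q * (3 * d) + 2 * q := by ring
    have e2 : q * (2 * N + (V2 + A)) = 2 * (q * N) + q * V2 + q * A := by ring
    have e3 : q * d ^ 2 = q * V2 + q * L := by rw [← hL]; ring
    rw [e1, e2, e3] at h1
    omega
  have hL4 : L ≤ 4 * N := by
    have h1 : 2 * L ≤ q * L := Nat.mul_le_mul_right _ hq1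
    have h2 : q * L ≤ q * (4 * N) := by
      have e1 : q * (4 * N) = 4 * (q * N) := by ring
      rw [e1]
      omega
    exact Nat.le_of_mul_le_mul_left h2 (by omega)
  have hNbig : 549755813888 * y ^ 11 ≤ N := by omega
  -- the scale
  obtain ⟨k, hk1, hk2⟩ := two_pow_between (n := 1024 * y ^ 3) (by omega)
  have hk2' : 2 ^ k ≤ 2048 * y ^ 3 := by omega
  obtain ⟨B, hB⟩ : ∃ B, B = 2 ^ k * (8 * (μ + 1)) := ⟨_, rfl⟩
  have hqB : q ≤ B := by
    rw [hB, hq, ← hy]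
    calc 16384 * y ^ 3 = 1024 * y ^ 3 * (8 * 2) := by ring
      _ ≤ 2 ^ k * (8 * y) := Nat.mul_le_mul hk1 (by omega)
  have hTB : B * (q + 1) ^ 2 ≤ T := by
    refine le_trans ?_ hT
    have h1 : B ≤ 16384 * y ^ 4 := by
      rw [hB, ← hy]
      calc 2 ^ k * (8 * y) ≤ 2048 * y ^ 3 * (8 * y) := Nat.mul_le_mul_right _ hk2'
        _ = 16384 * y ^ 4 := by ring
    have h2 : (q + 1) ^ 2 ≤ (16385 * y ^ 3) ^ 2 := by
      refine Nat.pow_le_pow_left ?_ 2
      omega
    calc B * (q + 1) ^ 2 ≤ 16384 * y ^ 4 * (16385 * y ^ 3) ^ 2 := Nat.mul_le_mul h1 h2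
      _ = 4398583398400 * y ^ 10 := by ring
      _ ≤ 8796093022208 * y ^ 11 := by
        have h3 : y ^ 10 ≤ y ^ 11 := Nat.pow_le_pow_right (by omega) (by norm_num)
        omega
  have hL0 : 1 ≤ L := by
    have : 1 ≤ y ^ 11 := Nat.one_le_pow _ _ (by omega)
    omega
  obtain ⟨E', hE'⟩ : ∃ E', E' = 16 * N / q + 2 * q ^ 2 + 1 := ⟨_, rfl⟩
  have hqE : 16 * N + 2 * q ^ 3 ≤ q * E' := by
    have h1 := Nat.lt_mul_div_succ (16 * N) (show 0 < q by omega)
    rw [hE']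
    have e1 : q * (16 * N / q + 2 * q ^ 2 + 1) = q * (16 * N / q + 1) + 2 * q ^ 3 := by ring
    rw [e1]
    omega
  have hcr : ∀ W : Multiset ℕ, (∀ v ∈ W, 1 ≤ v ∧ v ≤ 2 ^ k * (8 * (μ + 1))) →
      crkM (TF d) (M + W) = 0 ∨ 2 * crkM (TF d) (M + W) + sqs W ≤ 2 * N + E' := by
    intro W hW
    rw [← hB] at hW
    rcases crude hM hv hTB (by rw [← hV2]; exact hL) hL0 (by omega) hqB hW with h0 | h0
    · exact Or.inl h0
    · right
      have h1 : q * (2 * crkM (TF d) (M + W) + sqs W) ≤ q * (2 * N + E') := by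
        have e1 : q * (2 * N + E') = 2 * (q * N) + q * E' := by ring
        rw [e1]
        omega
      exact Nat.le_of_mul_le_mul_left h1 (by omega)
  obtain ⟨g, hg⟩ : ∃ g : ℕ, 2 * N = 2 * NU.condM W + g ∨ 2 * N + g = 2 * NU.condM W := by
    rcases le_total (2 * N) (2 * NU.condM W) with h | h
    · exact ⟨_, Or.inr (Nat.add_sub_cancel' h)⟩
    · exact ⟨_, Or.inl (Nat.add_sub_cancel' h).symm⟩
  refine ex_of_crude' (k := k) (P := N / 2 ^ k + 1) (E' := E') (N := N) hpos hN hcr ?_ hW hg ?_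
  · have h1 := Nat.div_add_mod N (2 ^ k)
    have h2 := Nat.mod_lt N (show 0 < 2 ^ k by positivity)
    have h3 : 2 ^ k * (N / 2 ^ k + 1) = 2 ^ k * (N / 2 ^ k) + 2 ^ k := by ring
    omega
  · have hs : 2 * N ≤ y * (W.sum + 2 * g) := by
      have h1 : 2 * NU.condM W ≤ y * W.sum := by
        have h2 := two_condM W
        have h3 : sqs W ≤ μ * W.sum := by
          clear hg h2 hx0
          induction W using Multiset.induction_on with
          | empty => simp [sqs]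
          | cons b W ih =>
            rw [sqs_cons, Multiset.sum_cons]
            have h4 := ih fun v hv => hW v (Multiset.mem_cons_of_mem hv)
            have h5 := (hW b (Multiset.mem_cons_self b W)).2
            have h6 : b ^ 2 ≤ μ * b := by
              rw [sq]
              exact Nat.mul_le_mul_right _ h5
            rw [mul_add]
            omega
        have h4 : y * W.sum = μ * W.sum + W.sum := by
          rw [hy]
          ring
        omega
      have h5 : y * (W.sum + 2 * g) = y * W.sum + 2 * (y * g) := by ring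
      have h6 : 1 * g ≤ y * g := Nat.mul_le_mul_right _ (by omega)
      rcases hg with h | h <;> omega
    have key := numB (y := y) (z := 2 ^ k) (N := N) (q := q) (by omega) hk1 hk2' hq hNbig
    have e4 : (2 ^ k) ^ 2 = 4 ^ k := by
      rw [← pow_mul, mul_comm, pow_mul]
      norm_num
    rw [e4, ← hE'] at key
    unfold bigE
    rw [← hy]
    exact Nat.le_of_mul_le_mul_left (key.trans hs) (by omega)

end Pool.Agent.H879.Pos
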