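import Pool.Agent.H879.Pos.Bridge
import Pool.Agent.H879.Pos.Abs
import Pool.Agent.H879.Star.Num

/-! Small points on a positive linear system. -/

set_option autoImplicit false

namespace Pool.Agent.H879.Pos

open MvPolynomial Pool.Agent.W609 Pool.Agent.W609.CR Pool.Agent.TH167.SH Pool.Agent.TH167.TT
  Pool.Agent.H248R5 Pool.Agent.H248R6
open Pool.Agent.Y205.MD
open Pool.Agent.TH387.SH (TF coe_TF card_TF)

/-- a member of the system of the class -/
theorem crk_of_mem {n e : ℕ} {c : Fin n → ℕ} {K : Type} [Field K] [CharZero K]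
    {P : Fin n → Fin 2 → K}
    (hP : AlgebraicIndependent ℚ (fun ij : Fin n × Fin 2 => P ij.1 ij.2))
    {G : MvPolynomial (Fin 3) K} (hG0 : G ≠ 0) (hG : G ∈ forms c P e) : 1 ≤ crk (TF e) c := by
  rw [← finrank_ind c e hP]
  have hfin := forms_finite c P e
  have : Nontrivial ↥(forms c P e) :=
    ⟨⟨⟨G, hG⟩, 0, fun h => hG0 (congrArg Subtype.val h)⟩⟩
  exact Module.finrank_pos

theorem crk_of_two {n e : ℕ} {c : Fin n → ℕ} {K : Type} [Field K] [CharZero K]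
    {P : Fin n → Fin 2 → K}
    (hP : AlgebraicIndependent ℚ (fun ij : Fin n × Fin 2 => P ij.1 ij.2))
    {G H : MvPolynomial (Fin 3) K} (hG0 : G ≠ 0) (hG : G ∈ forms c P e) (hH : H ∈ forms c P e)
    (hnd : ¬ G ∣ H) : 2 ≤ crk (TF e) c := by
  rw [← finrank_ind c e hP]
  have hfin := forms_finite c P e
  by_contra hcon
  have h1 : Module.finrank K ↥(forms c P e) = 1 := by
    have h2 := crk_of_mem hP hG0 hG
    rw [← finrank_ind c e hP] at h2
    omega
  have hG0' : (⟨G, hG⟩ : ↥(forms c P e)) ≠ 0 := fun h => hG0 (congrArg Subtype.val h)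
  obtain ⟨a, ha⟩ := (finrank_eq_one_iff_of_nonzero' _ hG0').1 h1 ⟨H, hH⟩
  have h2 : a • G = H := congrArg Subtype.val ha
  apply hnd
  rw [← h2, ← C_mul']
  exact Dvd.intro_left _ rfl

/-- some of the points -/
theorem ind_castAdd {n k : ℕ} {K : Type} [Field K] [CharZero K] {P : Fin (n + k) → Fin 2 → K}
    (hP : AlgebraicIndependent ℚ (fun ij : Fin (n + k) × Fin 2 => P ij.1 ij.2)) :
    AlgebraicIndependent ℚ (fun ij : Fin n × Fin 2 => P (Fin.castAdd k ij.1) ij.2) := by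
  have h := hP.comp (fun ij : Fin n × Fin 2 => (Fin.castAdd k ij.1, ij.2)) (by
    rintro ⟨i, a⟩ ⟨j, b⟩ h
    simp only [Prod.mk.injEq] at h
    obtain ⟨h1, h2⟩ := h
    have h3 := Fin.castAdd_injective n k h1
    rw [h3, h2])
  exact h

theorem forms_castAdd {n k e : ℕ} {K : Type} [Field K] {P : Fin (n + k) → Fin 2 → K}
    {c : Fin (n + k) → ℕ} {c' : Fin n → ℕ} (hc : ∀ i, c' i ≤ c (Fin.castAdd k i))
    {G : MvPolynomial (Fin 3) K} (hG : G ∈ forms c P e) :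
    G ∈ forms c' (fun i => P (Fin.castAdd k i)) e := by
  rw [← mem_forms_VS, mem_VS] at hG ⊢
  exact ⟨hG.1, fun i => van_mono (hc i) (hG.2 (Fin.castAdd k i))⟩

section crude
open Finset Pool.Agent.TH176.Nag Pool.Agent.TH603.Sur Pool.Agent.TH2 Pool.Agent.TH2.NU
open Pool.Agent.Y205.FW Pool.Agent.Y205.AV Pool.Agent.K7.H33.BP
open Pool.Agent.H879.Star

/-- the class is nonnegative on all curves, and at least `T` on the moving ones -/
structure Posv (T : ℕ) {n : ℕ} (d : ℕ) (v : Fin n → ℕ) : Prop where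
  nef : ∀ (e : ℕ) (c : Fin n → ℕ), 1 ≤ crk (TF e) c → ∑ i, v i * c i ≤ d * e
  mov : ∀ (e : ℕ) (c : Fin n → ℕ), 2 ≤ crk (TF e) c → ∑ i, v i * c i + T ≤ d * e

theorem posv_nef {n k d T : ℕ} {v : Fin n → ℕ} (hv : Posv T d v) {K : Type} [Field K]
    [CharZero K] {P : Fin (n + k) → Fin 2 → K}
    (hP : AlgebraicIndependent ℚ (fun ij : Fin (n + k) × Fin 2 => P ij.1 ij.2))
    {G : MvPolynomial (Fin 3) K} {e : ℕ} {c : Fin (n + k) → ℕ} (hG : Irreducible G)
    (hGe : G.IsHomogeneous e) (hc : ∀ j, Ord (aff (P j)) (c j) G) :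
    ∑ i, v i * c (Fin.castAdd k i) ≤ d * e := by
  obtain ⟨P', hP'⟩ : ∃ P' : Fin n → Fin 2 → K, P' = fun i => P (Fin.castAdd k i) := ⟨_, rfl⟩
  have h1 : AlgebraicIndependent ℚ (fun ij : Fin n × Fin 2 => P' ij.1 ij.2) := by
    rw [hP']
    exact ind_castAdd hP
  have h2 : G ∈ forms (fun i => c (Fin.castAdd k i)) P' e := by
    rw [← mem_forms_VS, mem_VS, hP']
    exact ⟨hGe, fun i => (hc (Fin.castAdd k i)).1⟩
  exact hv.nef e _ (crk_of_mem h1 hG.ne_zero h2)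

theorem posv_mov {n k d T : ℕ} {v : Fin n → ℕ} (hv : Posv T d v) {K : Type} [Field K]
    [CharZero K] {P : Fin (n + k) → Fin 2 → K}
    (hP : AlgebraicIndependent ℚ (fun ij : Fin (n + k) × Fin 2 => P ij.1 ij.2))
    {G : MvPolynomial (Fin 3) K} {e : ℕ} {c : Fin (n + k) → ℕ} (hG : Irreducible G)
    (hGe : G.IsHomogeneous e) (hc : ∀ j, Ord (aff (P j)) (c j) G) {j : Fin (n + k)}
    (hj : ∀ i, Fin.castAdd k i ≠ j) (hj1 : 1 ≤ c j) :
    ∑ i, v i * c (Fin.castAdd k i) + T ≤ d * e := by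
  obtain ⟨P', hP'⟩ : ∃ P' : Fin n → Fin 2 → K, P' = fun i => P (Fin.castAdd k i) := ⟨_, rfl⟩
  have h1 : AlgebraicIndependent ℚ (fun ij : Fin n × Fin 2 => P' ij.1 ij.2) := by
    rw [hP']
    exact ind_castAdd hP
  have h2 : G ∈ forms (fun i => c (Fin.castAdd k i)) P' e := by
    rw [← mem_forms_VS, mem_VS, hP']
    exact ⟨hGe, fun i => (hc (Fin.castAdd k i)).1⟩
  obtain ⟨m', hm'⟩ : ∃ m', c j = m' + 1 := ⟨c j - 1, by omega⟩
  obtain ⟨H, hH, hnd⟩ := moved hP hG hGe hc hm'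
  have h3 : H ∈ forms (fun i => c (Fin.castAdd k i)) P' e := by
    rw [← mem_forms_VS, mem_VS] at hH ⊢
    rw [hP']
    refine ⟨hH.1, fun i => ?_⟩
    have h4 := hH.2 (Fin.castAdd k i)
    rw [Function.update_of_ne (hj i)] at h4
    exact h4
  exact hv.mov e _ (crk_of_two h1 hG.ne_zero h2 h3 hnd)

theorem exists_form_of_crk {n d : ℕ} {m : Fin n → ℕ} (h : 1 ≤ crk (TF d) m) :
    ∃ (K : Type) (_ : Field K) (_ : CharZero K) (P : Fin n → Fin 2 → K),
      AlgebraicIndependent ℚ (fun ij : Fin n × Fin 2 => P ij.1 ij.2) ∧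
      ∃ F ∈ forms m P d, F ≠ 0 := by
  refine ⟨GK (Fin n), inferInstance, inferInstance, gP n, gP_ind n, ?_⟩
  rw [← finrank_gP] at h
  have hfin := forms_finite m (gP n) d
  obtain ⟨⟨F, hF⟩, hF0'⟩ := Module.finrank_pos_iff_exists_ne_zero.1 (show 0 < _ from h)
  exact ⟨F, hF, fun h => hF0' (Subtype.ext h)⟩

theorem crude_emp {n d q B T : ℕ} {v : Fin n → ℕ} {M : Multiset ℕ}
    (hM : ∀ t : ℕ → ℕ, ∑ i, t (v i) = (M.map t).sum)
    (hv : Posv T d v) (hT : B * (q + 1) ^ 2 ≤ T) (hL : ∑ i, v i ^ 2 < d ^ 2) {W : Multiset ℕ}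
    (hW : ∀ x ∈ W, x ≤ B) (hne : 1 ≤ crkM (TF d) (M + W)) :
    q * sqs W + (q + 1) * ∑ i, v i ^ 2 ≤ (q + 1) * d ^ 2 := by
  classical
  obtain ⟨k, w, hwW, hmem⟩ : ∃ (k : ℕ) (w : Fin k → ℕ),
      (∀ t : ℕ → ℕ, ∑ p, t (w p) = (W.map t).sum) ∧
      ∀ p, w p ∈ W := ⟨_, vec W, fun t => sum_vec W t, fun p => by
    unfold vec
    rw [← Multiset.mem_toList]
    exact List.get_mem _ _⟩
  obtain ⟨m, hm⟩ : ∃ m : Fin (n + k) → ℕ, m = Fin.append v w := ⟨_, rfl⟩
  have hcrk : crk (TF d) m = crkM (TF d) (M + W) := by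
    symm
    refine crkM_eq fun t => ?_
    rw [Fin.sum_univ_add, hm, Multiset.map_add, Multiset.sum_add, ← hM, ← hwW]
    simp
  rw [← hcrk] at hne
  obtain ⟨K, _, _, P, hP, F, hF, hF0⟩ := exists_form_of_crk hne
  obtain ⟨v', hv'⟩ : ∃ v' : Fin (n + k) → ℕ, v' = Fin.append v (fun _ => 0) := ⟨_, rfl⟩
  obtain ⟨w', hw'⟩ : ∃ w' : Fin (n + k) → ℕ, w' = Fin.append (fun _ => 0) w := ⟨_, rfl⟩
  have hmv : m = fun i => v' i + w' i := by
    funext i
    rw [hm, hv', hw']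
    refine Fin.addCases (fun i => ?_) (fun i => ?_) i
    · simp
    · simp
  have hsum : ∀ c : Fin (n + k) → ℕ,
      ∑ i, v' i * c i = ∑ i, v i * c (Fin.castAdd k i) := by
    intro c
    rw [Fin.sum_univ_add, hv']
    simp
  have hvs : ∑ i, v' i ^ 2 = ∑ i, v i ^ 2 := by
    rw [Fin.sum_univ_add, hv']
    simp
  have hws : ∑ i, w' i ^ 2 = sqs W := by
    rw [Fin.sum_univ_add, hw']
    simp only [Fin.append_left, Fin.append_right]
    rw [hwW fun x => x ^ 2]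
    simp [sqs]
  have hres := ce (P := P) (d := d) (q := q) (B := B) (T := T)
    (v := v') (w := w') hP ?_ ?_ hT (by rw [hvs]; exact hL) ?_ ?_ hF0
    (by rw [← hmv]; exact hF)
  · rw [hvs, hws] at hres
    exact hres
  · intro i
    refine Fin.addCases (fun i => ?_) (fun i => ?_) i
    · right
      rw [hw']
      simp
    · left
      rw [hv']
      simp
  · intro i
    refine Fin.addCases (fun i => ?_) (fun i => ?_) i
    · rw [hw']
      simp
    · rw [hw']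
      simp only [Fin.append_right]
      exact hW _ (hmem i)
  · intro G e c hG hGe hc
    rw [hsum]
    exact posv_nef hv hP hG hGe hc
  · rintro G e c hG hGe hc ⟨j, hj1, hj2⟩
    rw [hsum]
    refine posv_mov hv hP hG hGe hc (j := j) (fun i => ?_) hj2
    rintro rfl
    apply hj1
    rw [hw']
    simp

/-- the numbers -/
theorem crude_num {k q s L c r : ℕ} (hq : 1 ≤ q) (hc : 2 * c = q * (q + 1))
    (hr : k ≤ (r + 1) * c) (h : q * (s + r * q ^ 2) ≤ (q + 1) * L) :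
    q * (s + 2 * k) ≤ q * L + 3 * L + 2 * q ^ 3 := by
  have h1 : 2 * k ≤ (r + 1) * (q * (q + 1)) := by
    rw [← hc]
    calc 2 * k ≤ 2 * ((r + 1) * c) := by omega
      _ = (r + 1) * (2 * c) := by ring
  -- multiply by q
  have h2 : q * (q * (s + 2 * k)) ≤ q * (q * L + 3 * L + 2 * q ^ 3) := by
    have h3 : q * (2 * k) * q ≤ q * ((r + 1) * (q * (q + 1))) * q :=
      Nat.mul_le_mul_right _ (Nat.mul_le_mul_left _ h1)
    have h4 : (q + 1) * (q * (s + r * q ^ 2)) ≤ (q + 1) * ((q + 1) * L) :=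
      Nat.mul_le_mul_left _ h
    have h5 : L ≤ q * L := Nat.le_mul_of_pos_left _ hq
    have h6 : q * (q * s) ≤ (q + 1) * (q * s) := Nat.mul_le_mul_right _ (by omega)
    have e1 : q * ((r + 1) * (q * (q + 1))) * q = (q + 1) * (q * (r * q ^ 2)) + q ^ 3 * (q + 1) := by
      ring
    have e2 : (q + 1) * (q * (s + r * q ^ 2)) = (q + 1) * (q * s) + (q + 1) * (q * (r * q ^ 2)) := by
      ring
    have e3 : (q + 1) * ((q + 1) * L) = q * (q * L) + 2 * (q * L) + L := by ring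
    have e4 : q * (q * L + 3 * L + 2 * q ^ 3) = q * (q * L) + 3 * (q * L) + 2 * q ^ 4 := by ring
    have e5 : q ^ 3 * (q + 1) = q ^ 4 + q ^ 3 := by ring
    have e6 : q ^ 3 ≤ q ^ 4 := Nat.pow_le_pow_right hq (by norm_num)
    have e7 : q * (q * (s + 2 * k)) = q * (q * s) + q * (2 * k) * q := by ring
    rw [e7, e4]
    omega
  exact Nat.le_of_mul_le_mul_left h2 hq

/-- **the crude bound** -/
theorem crude {n d q B T L : ℕ} {v : Fin n → ℕ} {M : Multiset ℕ}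
    (hM : ∀ t : ℕ → ℕ, ∑ i, t (v i) = (M.map t).sum)
    (hv : Posv T d v) (hT : B * (q + 1) ^ 2 ≤ T) (hL : ∑ i, v i ^ 2 + L = d ^ 2) (hL0 : 1 ≤ L)
    (hq : 1 ≤ q) (hqB : q ≤ B) {W : Multiset ℕ}
    (hW : ∀ x ∈ W, 1 ≤ x ∧ x ≤ B) :
    crkM (TF d) (M + W) = 0 ∨
      q * (2 * crkM (TF d) (M + W) + sqs W) ≤ q * L + 3 * L + 2 * q ^ 3 := by
  rcases Nat.eq_zero_or_pos (crkM (TF d) (M + W)) with h0 | h0
  · exact Or.inl h0
  right
  obtain ⟨k, hk⟩ : ∃ k, k = crkM (TF d) (M + W) := ⟨_, rfl⟩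
  rw [← hk] at h0 ⊢
  obtain ⟨c, hc⟩ : ∃ c, c = (q + 1).choose 2 := ⟨_, rfl⟩
  have h2c : 2 * c = q * (q + 1) := by
    rw [hc]
    exact Pool.Agent.TH2.NU.two_choose q
  have hc0 : 0 < c := by
    have : 0 < q * (q + 1) := by positivity
    omega
  obtain ⟨r, hr⟩ : ∃ r, r = (k - 1) / c := ⟨_, rfl⟩
  have hr1 : r * c ≤ k - 1 := by
    rw [hr]
    exact Nat.div_mul_le_self _ _
  have hr2 : k ≤ (r + 1) * c := by
    have h3 := Nat.lt_mul_div_succ (k - 1) hc0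
    rw [← hr] at h3
    have e : c * (r + 1) = (r + 1) * c := mul_comm _ _
    omega
  have hne : 1 ≤ crkM (TF d) (M + (W + Multiset.replicate r q)) := by
    have h1 := le_crkM_add (S := TF d) TF_pos (M + W) (Multiset.replicate r q)
    rw [condM_rep, ← hk, ← hc, add_assoc] at h1
    omega
  have h2 := crude_emp hM hv hT (by omega) (W := W + Multiset.replicate r q) (by
    intro x hx
    rcases Multiset.mem_add.1 hx with h | h
    · exact (hW x h).2
    · rw [Multiset.eq_of_mem_replicate h]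
      exact hqB) hne
  have hs : sqs (W + Multiset.replicate r q) = sqs W + r * q ^ 2 := by
    unfold sqs
    rw [Multiset.map_add, Multiset.sum_add, Multiset.map_replicate, Multiset.sum_replicate,
      smul_eq_mul]
  rw [hs, ← hL] at h2
  have h3 : q * (sqs W + r * q ^ 2) ≤ (q + 1) * L := by
    have e : (q + 1) * (∑ i, v i ^ 2 + L) = (q + 1) * ∑ i, v i ^ 2 + (q + 1) * L := by ring
    rw [e] at h2
    omega
  have h4 := crude_num hq h2c hr2 h3
  rw [add_comm (2 * k)]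
  exact h4

end crude

end Pool.Agent.H879.Pos
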